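import Mathlib

/-!
# The action of matrices on the coefficient functions of multilinear forms
-/

set_option linter.unusedSectionVars false

namespace Pool.Agent.W437.HK

open Matrix

variable {B κ K : Type*} [Fintype B] [DecidableEq B] [Fintype κ] [DecidableEq κ] [Field K]

/-- The action of a matrix (as a derivation) in one variable. -/
def actk (X : Matrix B B K) (k : κ) (c : (κ → B) → K) : (κ → B) → K :=
  fun I => ∑ j, X j (I k) * c (Function.update I k j)

/-- The action of a matrix on the coefficient functions of multilinear forms. -/
def act (X : Matrix B B K) (c : (κ → B) → K) : (κ → B) → K :=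
  fun I => ∑ k, ∑ j, X j (I k) * c (Function.update I k j)

theorem act_eq_sum (X : Matrix B B K) (c : (κ → B) → K) : act X c = ∑ k, actk X k c := by
  funext I
  rw [Finset.sum_apply]
  rfl

theorem actk_add (X : Matrix B B K) (k : κ) (c d : (κ → B) → K) :
    actk X k (c + d) = actk X k c + actk X k d := by
  funext I
  simp only [actk, Pi.add_apply, mul_add, Finset.sum_add_distrib]

theorem actk_sum {ι : Type*} (s : Finset ι) (X : Matrix B B K) (k : κ) (c : ι → (κ → B) → K) :
    actk X k (∑ i ∈ s, c i) = ∑ i ∈ s, actk X k (c i) := by
  classical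
  funext I
  simp only [actk, Finset.sum_apply, Finset.mul_sum]
  rw [Finset.sum_comm]

theorem act_zero_right (X : Matrix B B K) : act X (0 : (κ → B) → K) = 0 := by
  funext I
  simp [act]

theorem act_add_left (X Y : Matrix B B K) (c : (κ → B) → K) :
    act (X + Y) c = act X c + act Y c := by
  funext I
  simp only [act, Pi.add_apply, Matrix.add_apply, add_mul, Finset.sum_add_distrib]

theorem act_smul_left (a : K) (X : Matrix B B K) (c : (κ → B) → K) :
    act (a • X) c = a • act X c := by
  funext I
  simp only [act, Pi.smul_apply, Matrix.smul_apply, smul_eq_mul, Finset.mul_sum, mul_assoc]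

theorem act_zero_left (c : (κ → B) → K) : act (0 : Matrix B B K) c = 0 := by
  funext I
  simp [act]

/-- The action as a linear map in the matrix. -/
def actL (c : (κ → B) → K) : Matrix B B K →ₗ[K] ((κ → B) → K) where
  toFun X := act X c
  map_add' X Y := act_add_left X Y c
  map_smul' a X := act_smul_left a X c

theorem actL_apply (c : (κ → B) → K) (X : Matrix B B K) : actL c X = act X c := rfl

theorem act_sub_left (X Y : Matrix B B K) (c : (κ → B) → K) :
    act (X - Y) c = act X c - act Y c := (actL c).map_sub X Y

theorem act_neg_left (X : Matrix B B K) (c : (κ → B) → K) :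
    act (-X) c = -act X c := (actL c).map_neg X

theorem act_add_right (X : Matrix B B K) (c d : (κ → B) → K) :
    act X (c + d) = act X c + act X d := by
  funext I
  simp only [act, Pi.add_apply, mul_add, Finset.sum_add_distrib]

theorem act_smul_right (a : K) (X : Matrix B B K) (c : (κ → B) → K) :
    act X (a • c) = a • act X c := by
  funext I
  simp only [act, Pi.smul_apply, smul_eq_mul, Finset.mul_sum, mul_left_comm]

theorem actk_comm (X Y : Matrix B B K) {k l : κ} (hkl : k ≠ l) (c : (κ → B) → K) :
    actk X k (actk Y l c) = actk Y l (actk X k c) := by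
  funext I
  simp only [actk, Finset.mul_sum]
  rw [Finset.sum_comm]
  refine Finset.sum_congr rfl fun i _ => Finset.sum_congr rfl fun j _ => ?_
  rw [Function.update_of_ne hkl.symm, Function.update_of_ne hkl, Function.update_comm hkl]
  ring

theorem actk_same (X Y : Matrix B B K) (k : κ) (c : (κ → B) → K) :
    actk X k (actk Y k c) = actk (Y * X) k c := by
  funext I
  simp only [actk, Finset.mul_sum, Function.update_self, Function.update_idem, Matrix.mul_apply,
    Finset.sum_mul]
  rw [Finset.sum_comm]
  refine Finset.sum_congr rfl fun i _ => Finset.sum_congr rfl fun j _ => ?_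
  ring

theorem actk_sub_left (X Y : Matrix B B K) (k : κ) (c : (κ → B) → K) :
    actk (X - Y) k c = actk X k c - actk Y k c := by
  funext I
  simp only [actk, Pi.sub_apply, Matrix.sub_apply, sub_mul, Finset.sum_sub_distrib]

/-- The commutator of two actions. -/
theorem act_comm (X Y : Matrix B B K) (c : (κ → B) → K) :
    act X (act Y c) - act Y (act X c) = act (Y * X - X * Y) c := by
  simp only [act_eq_sum, actk_sum]
  rw [Finset.sum_comm (f := fun l k => actk Y l (actk X k c))]
  rw [← Finset.sum_sub_distrib]
  refine Finset.sum_congr rfl fun k _ => ?_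
  rw [← Finset.sum_sub_distrib, ← Finset.add_sum_erase _ _ (Finset.mem_univ k)]
  rw [Finset.sum_eq_zero, add_zero, actk_same, actk_same, actk_sub_left]
  intro l hl
  rw [sub_eq_zero]
  exact actk_comm X Y (Finset.ne_of_mem_erase hl).symm c

theorem act_bracket {X Y : Matrix B B K} {c : (κ → B) → K} (hX : act X c = 0) (hY : act Y c = 0) :
    act (X * Y - Y * X) c = 0 := by
  rw [← act_comm Y X c, hX, hY, act_zero_right, act_zero_right, sub_zero]

theorem act_reindex {κ' : Type*} [Fintype κ'] [DecidableEq κ'] (e : κ ≃ κ') (X : Matrix B B K)
    (c : (κ' → B) → K) :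
    act X (fun I : κ → B => c (fun k => I (e.symm k))) =
      fun I : κ → B => act X c (fun k => I (e.symm k)) := by
  funext I
  simp only [act]
  refine Fintype.sum_equiv e _ _ fun k => ?_
  refine Finset.sum_congr rfl fun j _ => ?_
  rw [Equiv.symm_apply_apply]
  congr 2
  funext l
  by_cases h : l = e k
  · subst h
    rw [Equiv.symm_apply_apply, Function.update_self, Function.update_self]
  · rw [Function.update_of_ne h, Function.update_of_ne]
    intro h2
    exact h (by rw [← h2, Equiv.apply_symm_apply])

section

variable {k : Type*} [Field k]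

/-- Extension of scalars of coefficient functions. -/
def cst (K : Type*) [Field K] [Algebra k K] (c : (κ → B) → k) : (κ → B) → K :=
  fun I => algebraMap k K (c I)

theorem cst_apply [Algebra k K] (c : (κ → B) → k) (I : κ → B) :
    cst K c I = algebraMap k K (c I) := rfl

theorem cst_self (c : (κ → B) → k) : cst k c = c := rfl

theorem cst_injective [Algebra k K] :
    Function.Injective (cst K : ((κ → B) → k) → (κ → B) → K) := by
  intro c d h
  funext I
  exact (algebraMap k K).injective (congrFun h I)

theorem cst_add [Algebra k K] (c d : (κ → B) → k) : cst K (c + d) = cst K c + cst K d := by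
  funext I
  simp [cst]

theorem cst_zero [Algebra k K] : cst K (0 : (κ → B) → k) = 0 := by
  funext I
  simp [cst]

theorem act_cst [Algebra k K] (X : Matrix B B k) (c : (κ → B) → k) :
    act (X.map (algebraMap k K)) (cst K c) = cst K (act X c) := by
  funext I
  simp [act, cst]

end

/-- The value of a form. -/
def evalF (c : (κ → B) → K) (x : κ → B → K) : K := ∑ I, c I * ∏ k, x k (I k)

theorem evalF_act (X : Matrix B B K) (c : (κ → B) → K) (x : κ → B → K) :
    evalF (act X c) x = ∑ k, evalF c (Function.update x k (X *ᵥ (x k))) := by
  classical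
  simp only [evalF, act, Finset.sum_mul]
  rw [Finset.sum_comm]
  refine Finset.sum_congr rfl fun k _ => ?_
  -- for fixed k
  have h1 : ∀ I : κ → B, c I * ∏ l, Function.update x k (X *ᵥ (x k)) l (I l) =
      ∑ i, X (I k) i * c I * (x k i * ∏ l ∈ Finset.univ.erase k, x l (I l)) := by
    intro I
    rw [← Finset.mul_prod_erase _ _ (Finset.mem_univ k), Function.update_self]
    have h2 : ∏ l ∈ Finset.univ.erase k, Function.update x k (X *ᵥ (x k)) l (I l) =
        ∏ l ∈ Finset.univ.erase k, x l (I l) := by
      refine Finset.prod_congr rfl fun l hl => ?_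
      rw [Function.update_of_ne (Finset.ne_of_mem_erase hl)]
    rw [h2]
    simp only [Matrix.mulVec, dotProduct, Finset.sum_mul, Finset.mul_sum]
    refine Finset.sum_congr rfl fun i _ => by ring
  rw [Finset.sum_congr rfl (fun I _ => h1 I)]
  have h3 : ∀ I : κ → B, ∏ l, x l (I l) = x k (I k) * ∏ l ∈ Finset.univ.erase k, x l (I l) :=
    fun I => (Finset.mul_prod_erase _ _ (Finset.mem_univ k)).symm
  simp only [h3]
  rw [← Finset.sum_product', ← Finset.sum_product']
  refine Finset.sum_bij' (fun p _ => (Function.update p.1 k p.2, p.1 k))
    (fun p _ => (Function.update p.1 k p.2, p.1 k)) ?_ ?_ ?_ ?_ ?_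
  · intro p _; simp
  · intro p _; simp
  · intro p _; simp
  · intro p _; simp
  · intro p _
    simp only [Function.update_self]
    have h4 : ∏ l ∈ Finset.univ.erase k, x l (Function.update p.1 k p.2 l) =
        ∏ l ∈ Finset.univ.erase k, x l (p.1 l) := by
      refine Finset.prod_congr rfl fun l hl => ?_
      rw [Function.update_of_ne (Finset.ne_of_mem_erase hl)]
    rw [h4]

theorem evalF_single (c : (κ → B) → K) (I : κ → B) :
    evalF c (fun k => Pi.single (I k) 1) = c I := by
  unfold evalF
  rw [Finset.sum_eq_single I]
  · simp
  · intro J _ hJ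
    obtain ⟨k, hk⟩ : ∃ k, J k ≠ I k := by
      by_contra h
      push Not at h
      exact hJ (funext h)
    rw [Finset.prod_eq_zero (Finset.mem_univ k), mul_zero]
    simp [hk]
  · intro h
    exact absurd (Finset.mem_univ _) h

theorem evalF_update_add (c : (κ → B) → K) (x : κ → B → K) (k : κ) (u v : B → K) :
    evalF c (Function.update x k (u + v)) =
      evalF c (Function.update x k u) + evalF c (Function.update x k v) := by
  simp only [evalF, ← Finset.sum_add_distrib]
  refine Finset.sum_congr rfl fun I _ => ?_
  rw [← Finset.mul_prod_erase _ _ (Finset.mem_univ k), ← Finset.mul_prod_erase _ _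
    (Finset.mem_univ k), ← Finset.mul_prod_erase _ _ (Finset.mem_univ k)]
  have h2 : ∀ w : B → K, ∏ l ∈ Finset.univ.erase k, Function.update x k w l (I l) =
      ∏ l ∈ Finset.univ.erase k, x l (I l) := by
    intro w
    refine Finset.prod_congr rfl fun l hl => ?_
    rw [Function.update_of_ne (Finset.ne_of_mem_erase hl)]
  rw [h2, h2, h2, Function.update_self, Function.update_self, Function.update_self, Pi.add_apply]
  ring

theorem evalF_update_smul (c : (κ → B) → K) (x : κ → B → K) (k : κ) (a : K) (u : B → K) :
    evalF c (Function.update x k (a • u)) = a * evalF c (Function.update x k u) := by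
  simp only [evalF, Finset.mul_sum]
  refine Finset.sum_congr rfl fun I _ => ?_
  rw [← Finset.mul_prod_erase _ _ (Finset.mem_univ k), ← Finset.mul_prod_erase _ _
    (Finset.mem_univ k)]
  have h2 : ∀ w : B → K, ∏ l ∈ Finset.univ.erase k, Function.update x k w l (I l) =
      ∏ l ∈ Finset.univ.erase k, x l (I l) := by
    intro w
    refine Finset.prod_congr rfl fun l hl => ?_
    rw [Function.update_of_ne (Finset.ne_of_mem_erase hl)]
  rw [h2, h2, Function.update_self, Function.update_self, Pi.smul_apply, smul_eq_mul]
  ring

/-- The value of a form as a multilinear map. -/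
def evalM {κ : Type*} [Fintype κ] [dk : DecidableEq κ] (c : (κ → B) → K) :
    MultilinearMap K (fun _ : κ => B → K) K where
  toFun x := evalF c x
  map_update_add' := by
    intro inst x k u v
    have h : dk = inst := Subsingleton.elim _ _
    subst h
    exact evalF_update_add c x k u v
  map_update_smul' := by
    intro inst x k a u
    have h : dk = inst := Subsingleton.elim _ _
    subst h
    exact evalF_update_smul c x k a u

theorem evalM_apply (c : (κ → B) → K) (x : κ → B → K) : evalM c x = evalF c x := rfl

theorem evalF_zero (x : κ → B → K) : evalF (0 : (κ → B) → K) x = 0 := by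
  simp [evalF]

theorem eq_zero_of_evalF {c : (κ → B) → K} (h : ∀ x : κ → B → K, evalF c x = 0) : c = 0 := by
  funext I
  rw [← evalF_single c I, h]
  rfl

end Pool.Agent.W437.HK
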