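import Mathlib
import Pool.Agent.W437.HK.Lie

/-!
# The complex structure given by a period matrix
-/

set_option linter.unusedSectionVars false

namespace Pool.Agent.W437.HK

open Matrix

variable {G : Type*} [Fintype G] [DecidableEq G]

/-- The standard symplectic form, as a matrix. -/
def Om (G : Type*) [DecidableEq G] (K : Type*) [Ring K] : Matrix (G ⊕ G) (G ⊕ G) K :=
  fromBlocks 0 1 (-1) 0

theorem Om_map (k K : Type*) [Field k] [Field K] [Algebra k K] :
    (Om G k).map (algebraMap k K) = Om G K := by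
  ext i j
  rcases i with i | i <;> rcases j with j | j <;>
    simp [Om, Matrix.one_apply, apply_ite]

theorem Om_transpose (K : Type*) [CommRing K] : (Om G K)ᵀ = -Om G K := by
  simp [Om, fromBlocks_transpose, fromBlocks_neg]

theorem Om_sq (K : Type*) [CommRing K] : Om G K * Om G K = -1 := by
  simp [Om, fromBlocks_multiply, ← fromBlocks_one, fromBlocks_neg]

/-- A vector of the Lagrangian subspace given by a symmetric matrix. -/
def vecL {K : Type*} [Field K] (M : Matrix G G K) (b : G → K) :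
    G ⊕ G → K := Sum.elim (-(M *ᵥ b)) b

theorem exists_decomp {K : Type*} [Field K] (M N : Matrix G G K)
    (h : IsUnit (N - M).det) (y : G ⊕ G → K) :
    ∃ b b', y = vecL M b + vecL N b' := by
  set y1 : G → K := fun i => y (Sum.inl i)
  set y2 : G → K := fun i => y (Sum.inr i)
  refine ⟨(N - M)⁻¹ *ᵥ (y1 + N *ᵥ y2), y2 - (N - M)⁻¹ *ᵥ (y1 + N *ᵥ y2), ?_⟩
  set b := (N - M)⁻¹ *ᵥ (y1 + N *ᵥ y2) with hb
  have h1 : (N - M) *ᵥ b = y1 + N *ᵥ y2 := by
    rw [hb, mulVec_mulVec, mul_nonsing_inv _ h, one_mulVec]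
  funext i
  rcases i with i | i
  · have h2 := congrFun h1 i
    rw [sub_mulVec, Pi.sub_apply, Pi.add_apply] at h2
    simp only [vecL, Pi.add_apply, Sum.elim_inl, Pi.neg_apply, mulVec_sub, Pi.sub_apply]
    change y1 i = _
    linear_combination -h2
  · simp only [vecL, Pi.add_apply, Sum.elim_inr, Pi.sub_apply]
    change y2 i = _
    ring

/-- The real part of the period matrix. -/
abbrev reM (Z : Matrix G G ℂ) : Matrix G G ℝ := Z.map Complex.re

/-- The imaginary part of the period matrix. -/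
abbrev imM (Z : Matrix G G ℂ) : Matrix G G ℝ := Z.map Complex.im

/-- The complex structure on the real homology. -/
noncomputable def JR (Z : Matrix G G ℂ) :
    Matrix (G ⊕ G) (G ⊕ G) ℝ :=
  fromBlocks (-(reM Z * (imM Z)⁻¹)) (-imM Z - reM Z * (imM Z)⁻¹ * reM Z) (imM Z)⁻¹
    ((imM Z)⁻¹ * reM Z)

/-- The operator with eigenvalues `± 1` on the complex homology. -/
noncomputable def DZ (Z : Matrix G G ℂ) :
    Matrix (G ⊕ G) (G ⊕ G) ℂ :=
  (-Complex.I) • (JR Z).map (fun x : ℝ => (x : ℂ))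

variable {Z : Matrix G G ℂ}

section

variable (hY : IsUnit (imM Z).det)

include hY

theorem JR_sq : JR Z * JR Z = -1 := by
  have h1 : imM Z * (imM Z)⁻¹ = 1 := mul_nonsing_inv _ hY
  have h2 : (imM Z)⁻¹ * imM Z = 1 := nonsing_inv_mul _ hY
  set X := reM Z
  set Y := imM Z
  set P := Y⁻¹
  have e1 : -(X * P) * -(X * P) + (-Y - X * P * X) * P = -1 := by
    have : -(X * P) * -(X * P) + (-Y - X * P * X) * P = -(Y * P) := by noncomm_ring
    rw [this, h1]
  have e2 : -(X * P) * (-Y - X * P * X) + (-Y - X * P * X) * (P * X) = 0 := by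
    have : -(X * P) * (-Y - X * P * X) + (-Y - X * P * X) * (P * X) =
        X * (P * Y) - Y * P * X := by noncomm_ring
    rw [this, h1, h2]
    simp
  have e3 : P * -(X * P) + P * X * P = 0 := by noncomm_ring
  have e4 : P * (-Y - X * P * X) + P * X * (P * X) = -1 := by
    have : P * (-Y - X * P * X) + P * X * (P * X) = -(P * Y) := by noncomm_ring
    rw [this, h2]
  unfold JR
  rw [fromBlocks_multiply, e1, e2, e3, e4]
  rw [← fromBlocks_one, fromBlocks_neg]
  simp

end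

section

variable (hZ : Zᵀ = Z)

include hZ

theorem reM_symm : (reM Z)ᵀ = reM Z := by
  rw [← Matrix.transpose_map, hZ]

theorem imM_symm : (imM Z)ᵀ = imM Z := by
  rw [← Matrix.transpose_map, hZ]

theorem OmJ_symm : (Om G ℝ * JR Z)ᵀ = Om G ℝ * JR Z := by
  unfold Om JR
  rw [fromBlocks_multiply, fromBlocks_transpose]
  simp only [zero_mul, one_mul, zero_add, neg_mul, add_zero, neg_neg, neg_sub, transpose_mul,
    transpose_sub, transpose_neg, transpose_nonsing_inv, reM_symm hZ, imM_symm hZ,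
    mul_assoc]

theorem JR_sp : (JR Z)ᵀ * Om G ℝ + Om G ℝ * JR Z = 0 := by
  have h1 := OmJ_symm hZ
  rw [transpose_mul, Om_transpose, mul_neg] at h1
  rw [← h1]
  abel

theorem OmJ_posDef (hpos : (imM Z).PosDef) : (Om G ℝ * JR Z).PosDef := by
  have hu : IsUnit (imM Z).det := hpos.isUnit.map Matrix.detMonoidHom
  refine PosDef.of_dotProduct_mulVec_pos ?_ fun x hx => ?_
  · rw [IsHermitian, conjTranspose_eq_transpose_of_trivial]
    exact OmJ_symm hZ
  · set a : G → ℝ := fun i => x (Sum.inl i) with ha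
    set b : G → ℝ := fun i => x (Sum.inr i) with hb
    have hx2 : x = Sum.elim a b := by
      funext i
      rcases i with i | i <;> rfl
    have h1 : star x ⬝ᵥ ((Om G ℝ * JR Z) *ᵥ x) =
        (a + reM Z *ᵥ b) ⬝ᵥ ((imM Z)⁻¹ *ᵥ (a + reM Z *ᵥ b)) + b ⬝ᵥ (imM Z *ᵥ b) := by
      rw [hx2]
      unfold Om JR
      rw [fromBlocks_multiply, fromBlocks_mulVec]
      simp only [star_trivial, zero_mul, one_mul, zero_add, neg_mul, add_zero, neg_neg, neg_sub,
        sub_neg_eq_add, Sum.elim_comp_inl, Sum.elim_comp_inr]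
      rw [sumElim_dotProduct_sumElim]
      have h2 : ∀ u v : G → ℝ, (reM Z *ᵥ u) ⬝ᵥ v = u ⬝ᵥ (reM Z *ᵥ v) := by
        intro u v
        rw [dotProduct_comm, dotProduct_mulVec, ← mulVec_transpose, reM_symm hZ, dotProduct_comm]
      simp only [add_dotProduct, dotProduct_add, mulVec_add, h2, add_mulVec, ← mulVec_mulVec]
      ring
    rw [h1]
    have h3 : ∀ u : G → ℝ, 0 ≤ u ⬝ᵥ ((imM Z)⁻¹ *ᵥ u) := by
      intro u
      by_cases hu0 : u = 0
      · rw [hu0]; simp
      · have := hpos.inv.dotProduct_mulVec_pos hu0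
        rw [star_trivial] at this
        exact this.le
    by_cases hb0 : b = 0
    · have ha0 : a ≠ 0 := by
        rintro h
        apply hx
        rw [hx2, h, hb0]
        funext i
        rcases i with i | i <;> rfl
      rw [hb0]
      simp only [mulVec_zero, add_zero, dotProduct_zero]
      have := hpos.inv.dotProduct_mulVec_pos ha0
      rwa [star_trivial] at this
    · have := hpos.dotProduct_mulVec_pos hb0
      rw [star_trivial] at this
      exact add_pos_of_nonneg_of_pos (h3 _) this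

end

/-- Extension of scalars of real matrices. -/
def cm {n : Type*} (M : Matrix n n ℝ) : Matrix n n ℂ := M.map (fun x : ℝ => (x : ℂ))

theorem cm_mul {n : Type*} [Fintype n] (M N : Matrix n n ℝ) : cm (M * N) = cm M * cm N :=
  Matrix.map_mul (f := Complex.ofRealHom)

theorem cm_one {n : Type*} [DecidableEq n] : cm (1 : Matrix n n ℝ) = 1 :=
  Matrix.map_one _ (by simp) (by simp)

theorem cm_neg {n : Type*} (M : Matrix n n ℝ) : cm (-M) = -cm M := by
  ext i j
  simp [cm]

theorem cm_sub {n : Type*} (M N : Matrix n n ℝ) : cm (M - N) = cm M - cm N := by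
  ext i j
  simp [cm]

theorem JR_vecL (hY : IsUnit (imM Z).det) (s : ℂ) (hs : s * s = -1) (b : G → ℂ) :
    (cm (JR Z)) *ᵥ (vecL (cm (reM Z) + s • cm (imM Z)) b) =
      (-s) • vecL (cm (reM Z) + s • cm (imM Z)) b := by
  have h1 : cm (imM Z) * cm (imM Z)⁻¹ = 1 := by rw [← cm_mul, mul_nonsing_inv _ hY, cm_one]
  have h2 : cm (imM Z)⁻¹ * cm (imM Z) = 1 := by rw [← cm_mul, nonsing_inv_mul _ hY, cm_one]
  have hJ : cm (JR Z) = fromBlocks (-(cm (reM Z) * cm (imM Z)⁻¹))
      (-cm (imM Z) - cm (reM Z) * cm (imM Z)⁻¹ * cm (reM Z)) (cm (imM Z)⁻¹)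
      (cm (imM Z)⁻¹ * cm (reM Z)) := by
    unfold JR
    rw [← cm_mul, ← cm_mul, ← cm_mul, ← cm_neg, ← cm_neg, ← cm_sub]
    exact fromBlocks_map _ _ _ _ _
  rw [hJ]
  unfold vecL
  rw [fromBlocks_mulVec, Sum.elim_comp_inl, Sum.elim_comp_inr]
  set X := cm (reM Z)
  set Y := cm (imM Z)
  set P := cm (imM Z)⁻¹
  have e1 : -(X * P) *ᵥ -((X + s • Y) *ᵥ b) + (-Y - X * P * X) *ᵥ b =
      -s • -((X + s • Y) *ᵥ b) := by
    have a1 : -(X * P) *ᵥ -((X + s • Y) *ᵥ b) = (X * P * X) *ᵥ b + s • (X *ᵥ b) := by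
      rw [neg_mulVec, mulVec_neg, neg_neg, mulVec_mulVec, mul_add, add_mulVec, mul_smul_comm,
        smul_mulVec, mul_assoc X P Y, h2, mul_one]
    rw [a1, sub_mulVec, neg_mulVec, smul_neg, neg_smul, neg_neg, add_mulVec, smul_add,
      smul_mulVec, smul_smul, hs]
    rw [neg_one_smul]
    abel
  have e2 : P *ᵥ -((X + s • Y) *ᵥ b) + (P * X) *ᵥ b = -s • b := by
    rw [mulVec_neg, mulVec_mulVec, mul_add, add_mulVec, mul_smul_comm, smul_mulVec, h2,
      one_mulVec, neg_smul]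
    abel
  rw [e1, e2]
  funext i
  rcases i with i | i <;> simp

theorem Z_eq : Z = cm (reM Z) + Complex.I • cm (imM Z) := by
  ext i j
  simp only [cm, Matrix.add_apply, Matrix.smul_apply, Matrix.map_apply, smul_eq_mul]
  rw [mul_comm]
  exact (Complex.re_add_im _).symm

theorem Zbar_eq : Z.map (starRingEnd ℂ) = cm (reM Z) + (-Complex.I) • cm (imM Z) := by
  ext i j
  simp only [cm, Matrix.add_apply, Matrix.smul_apply, Matrix.map_apply, smul_eq_mul]
  apply Complex.ext <;> simp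

/-- The action of `DZ` on the kernel of the period map. -/
theorem DZ_vecL (hY : IsUnit (imM Z).det) (b : G → ℂ) :
    DZ Z *ᵥ (vecL Z b) = -vecL Z b := by
  have h1 := JR_vecL hY Complex.I Complex.I_mul_I b
  rw [← Z_eq] at h1
  change ((-Complex.I) • cm (JR Z)) *ᵥ _ = _
  rw [smul_mulVec, h1, smul_smul]
  rw [show -Complex.I * -Complex.I = -1 by simp]
  rw [neg_one_smul]

/-- The action of `DZ` on the complex conjugate subspace. -/
theorem DZ_vecL_bar (hY : IsUnit (imM Z).det) (b : G → ℂ) :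
    DZ Z *ᵥ (vecL (Z.map (starRingEnd ℂ)) b) = vecL (Z.map (starRingEnd ℂ)) b := by
  have h1 := JR_vecL hY (-Complex.I) (by simp) b
  rw [← Zbar_eq] at h1
  change ((-Complex.I) • cm (JR Z)) *ᵥ _ = _
  rw [smul_mulVec, h1, smul_smul]
  rw [show -Complex.I * -(-Complex.I) = 1 by simp]
  rw [one_smul]

theorem isUnit_bar_sub (hY : IsUnit (imM Z).det) :
    IsUnit (Z.map (starRingEnd ℂ) - Z).det := by
  have h1 : Z.map (starRingEnd ℂ) - Z = (-2 * Complex.I) • cm (imM Z) := by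
    ext i j
    simp only [Matrix.sub_apply, Matrix.smul_apply, smul_eq_mul, Matrix.map_apply, cm]
    apply Complex.ext
    · simp
    · simp
      ring
  rw [h1, det_smul]
  refine IsUnit.mul (IsUnit.pow _ (by simp)) ?_
  have h2 : (cm (imM Z)).det = (((imM Z).det : ℝ) : ℂ) := (Complex.ofRealHom.map_det (imM Z)).symm
  rw [h2]
  exact hY.map Complex.ofRealHom

/-- Every complex vector is a sum of eigenvectors of `DZ`. -/
theorem exists_eig (hY : IsUnit (imM Z).det) (y : G ⊕ G → ℂ) :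
    ∃ u v, y = u + v ∧ DZ Z *ᵥ u = -u ∧ DZ Z *ᵥ v = v := by
  obtain ⟨b, b', h⟩ := exists_decomp Z (Z.map (starRingEnd ℂ)) (isUnit_bar_sub hY) y
  exact ⟨_, _, h, DZ_vecL hY b, DZ_vecL_bar hY b'⟩

section

variable (k : Type*) [Field k] [Algebra k ℝ]

theorem algebraMap_complex (x : k) : algebraMap k ℂ x = ((algebraMap k ℝ x : ℝ) : ℂ) := rfl

theorem JR_mem (Z : Matrix G G ℂ) : JR Z ∈ lieM k (DZ Z) ℝ := by
  intro n c hc
  have h1 : act (cm (JR Z)) (cst ℂ c) = 0 := by
    have h2 : cm (JR Z) = Complex.I • DZ Z := by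
      unfold DZ
      rw [smul_smul]
      rw [show Complex.I * -Complex.I = 1 by simp]
      rw [one_smul]
      rfl
    rw [h2, act_smul_left]
    have h3 : act (DZ Z) (cst ℂ c) = 0 := hc
    rw [h3, smul_zero]
  funext I
  have h2 := congrFun h1 I
  simp only [act, cst, cm, Matrix.map_apply, Pi.zero_apply, algebraMap_complex] at h2 ⊢
  exact_mod_cast h2

end

theorem DZ_sp (k : Type*) [Field k] [Algebra k ℂ] (hZ : Zᵀ = Z) :
    (DZ Z)ᵀ * (Om G k).map (algebraMap k ℂ) + (Om G k).map (algebraMap k ℂ) * DZ Z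
      = 0 := by
  have h1 := JR_sp hZ
  have h2 : (cm (JR Z))ᵀ * Om G ℂ + Om G ℂ * cm (JR Z) = 0 := by
    have h3 : cm (Om G ℝ) = Om G ℂ := by
      ext i j
      rcases i with i | i <;> rcases j with j | j <;>
        simp [cm, Om, Matrix.one_apply, apply_ite]
    have h4 : cm ((JR Z)ᵀ * Om G ℝ + Om G ℝ * JR Z) = 0 := by
      rw [h1]
      ext i j
      simp [cm]
    have h5 : cm ((JR Z)ᵀ * Om G ℝ + Om G ℝ * JR Z) =
        cm ((JR Z)ᵀ * Om G ℝ) + cm (Om G ℝ * JR Z) := by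
      ext i j
      simp [cm]
    rw [h5, cm_mul, cm_mul, h3] at h4
    exact h4
  rw [Om_map]
  change ((-Complex.I) • cm (JR Z))ᵀ * _ + _ * ((-Complex.I) • cm (JR Z)) = 0
  rw [transpose_smul, smul_mul_assoc, mul_smul_comm, ← smul_add, h2, smul_zero]

theorem isH_Om (k : Type*) [Field k] [Algebra k ℂ] (hZ : Zᵀ = Z) :
    IsH (DZ Z) (bilc (Om G k)) := isH_bilc _ (DZ_sp k hZ)

section

variable {k : Type*} [Field k] [Algebra k ℝ]

/-- The symplectic relation for the elements of the Lie algebra. -/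
theorem lie_sp (hZ : Zᵀ = Z) {K : Type*} [Field K] [Algebra k K]
    {X : Matrix (G ⊕ G) (G ⊕ G) K} (hX : X ∈ lieM k (DZ Z) K) :
    Xᵀ * Om G K + Om G K * X = 0 := by
  have h := lieM_bil _ (isH_Om k hZ) hX
  rwa [Om_map] at h

section

open scoped MatrixOrder

theorem exists_sqrt {n : Type*} [Fintype n] [DecidableEq n] {H : Matrix n n ℝ} (hH : H.PosDef) :
    ∃ y : Matrix n n ℝ, IsUnit y ∧ H = star y * y :=
  CStarAlgebra.isStrictlyPositive_iff_eq_star_mul_self.mp hH.isStrictlyPositive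

end

/-- The trace form is nondegenerate on the Lie algebra over a real field. -/
theorem trace_nondeg (hZ : Zᵀ = Z) (hpos : (imM Z).PosDef)
    (X : Matrix (G ⊕ G) (G ⊕ G) k) (hX : X ∈ lieM k (DZ Z) k)
    (h : ∀ Y ∈ lieM k (DZ Z) k, trace (X * Y) = 0) : X = 0 := by
  have hu : IsUnit (imM Z).det := hpos.isUnit.map Matrix.detMonoidHom
  set XR : Matrix (G ⊕ G) (G ⊕ G) ℝ := X.map (algebraMap k ℝ) with hXR
  have hXR' : XR ∈ lieM k (DZ Z) ℝ := cast_mem _ hX
  set J := JR Z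
  have hJ : J * J = -1 := JR_sq hu
  have h1 : J * XR * J ∈ lieM k (DZ Z) ℝ := lieM_conj _ hXR' (JR_mem k Z) hJ
  -- the trace with all real elements vanishes
  have h2 : ∀ Y ∈ lieM k (DZ Z) ℝ, trace (XR * Y) = 0 := by
    intro Y hY
    apply eq_zero_of_lam k
    intro lam
    have h3 : lam (trace (XR * Y)) = trace (X * Y.map lam) := by
      simp only [trace, diag_apply, Matrix.mul_apply, map_sum, hXR, Matrix.map_apply]
      refine Finset.sum_congr rfl fun i _ => Finset.sum_congr rfl fun j _ => ?_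
      rw [← Algebra.smul_def, map_smul, smul_eq_mul]
    rw [h3]
    exact h _ (map_mem _ hY lam)
  have h3 := h2 _ h1
  have hsp := lie_sp hZ hXR'
  have hH := OmJ_posDef hZ hpos
  obtain ⟨y, hy, hyy⟩ := exists_sqrt hH
  rw [star_eq_conjTranspose, conjTranspose_eq_transpose_of_trivial] at hyy
  -- `J = -Ω H`
  have hJH : J = -(Om G ℝ * (yᵀ * y)) := by
    rw [← hyy, ← mul_assoc, Om_sq, neg_one_mul, neg_neg]
  have hOX : Om G ℝ * XR = -(XRᵀ * Om G ℝ) := eq_neg_of_add_eq_zero_right hsp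
  obtain ⟨yi, hyyi⟩ : ∃ yi, y * yi = 1 := hy.exists_right_inv
  have hyiy : yi * y = 1 := mul_eq_one_comm.1 hyyi
  have hyyiT : yiᵀ * yᵀ = 1 := by rw [← transpose_mul, hyyi, transpose_one]
  have hyiyT : yᵀ * yiᵀ = 1 := by rw [← transpose_mul, hyiy, transpose_one]
  -- `J Ω = ...`
  have hJO : J = yi * yiᵀ * (-(Om G ℝ)) := by
    have e1 : (yᵀ * y) * J = -Om G ℝ := by
      rw [← hyy, mul_assoc, hJ, mul_neg_one]
    have e2 : yi * yiᵀ * ((yᵀ * y) * J) = J := by
      have : yi * yiᵀ * ((yᵀ * y) * J) = yi * ((yiᵀ * yᵀ) * y) * J := by noncomm_ring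
      rw [this, hyyiT, one_mul, hyiy, one_mul]
    rw [← e1, e2]
  have h4 : J * XR * J = yi * yiᵀ * XRᵀ * (yᵀ * y) := by
    have e1 : J * XR * J = (yi * yiᵀ * (-(Om G ℝ))) * XR * (-(Om G ℝ * (yᵀ * y))) := by
      rw [← hJO, ← hJH]
    have e2 : (yi * yiᵀ * (-(Om G ℝ))) * XR * (-(Om G ℝ * (yᵀ * y))) =
        (yi * yiᵀ) * (Om G ℝ * XR) * (Om G ℝ * (yᵀ * y)) := by noncomm_ring
    rw [e1, e2, hOX]
    have e3 : (yi * yiᵀ) * -(XRᵀ * Om G ℝ) * (Om G ℝ * (yᵀ * y)) =
        -((yi * yiᵀ) * XRᵀ * (Om G ℝ * Om G ℝ) * (yᵀ * y)) := by noncomm_ring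
    rw [e3, Om_sq]
    noncomm_ring
  rw [h4] at h3
  have h5 : trace ((y * XR * yi)ᴴ * (y * XR * yi)) = 0 := by
    rw [conjTranspose_eq_transpose_of_trivial, trace_mul_comm, transpose_mul, transpose_mul]
    have e1 : y * XR * yi * (yiᵀ * (XRᵀ * yᵀ)) = y * (XR * yi * (yiᵀ * (XRᵀ * yᵀ))) := by
      noncomm_ring
    rw [e1, trace_mul_comm, ← h3]
    congr 1
    noncomm_ring
  rw [trace_conjTranspose_mul_self_eq_zero_iff] at h5
  have h6 : XR = 0 := by
    have e1 : yi * (y * XR * yi) * y = XR := by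
      have : yi * (y * XR * yi) * y = (yi * y) * XR * (yi * y) := by noncomm_ring
      rw [this, hyiy, one_mul, mul_one]
    rw [← e1, h5, mul_zero, zero_mul]
  ext i j
  have h7 := congrFun (congrFun h6 i) j
  rw [hXR, Matrix.map_apply] at h7
  rw [Matrix.zero_apply] at h7 ⊢
  exact (map_eq_zero (algebraMap k ℝ)).1 h7

end

end Pool.Agent.W437.HK
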