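import Mathlib
import Pool.Agent.W437.HK.Period

/-!
# Polynomials in the entries of the period matrix
-/

set_option linter.unusedSectionVars false

namespace Pool.Agent.W437.HK

open Matrix

section

variable {B κ K : Type*} [Fintype B] [DecidableEq B] [Fintype κ] [DecidableEq κ] [Field K]

/-- A form killed by `D` vanishes on eigenvectors of `D` with nonzero sum of eigenvalues. -/
theorem evalF_eig {D : Matrix B B K} {c : (κ → B) → K} (h : act D c = 0) (s : κ → K)
    (x : κ → B → K) (hx : ∀ k, D *ᵥ x k = s k • x k) (hs : ∑ k, s k ≠ 0) : evalF c x = 0 := by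
  have h1 := evalF_act D c x
  rw [h, evalF_zero] at h1
  have h2 : ∀ k, evalF c (Function.update x k (D *ᵥ (x k))) = s k * evalF c x := by
    intro k
    rw [hx, evalF_update_smul, Function.update_eq_self]
  rw [Finset.sum_congr rfl (fun k _ => h2 k), ← Finset.sum_mul] at h1
  exact (mul_eq_zero.1 h1.symm).resolve_left hs

/-- It is enough to test the values of a form on a spanning set. -/
theorem evalF_span (c : (κ → B) → K) (S : Set (B → K)) (hS : Submodule.span K S = ⊤)
    (h : ∀ x : κ → B → K, (∀ k, x k ∈ S) → evalF c x = 0) (x : κ → B → K) : evalF c x = 0 := by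
  have key : ∀ (A : Finset κ) (x : κ → B → K), (∀ k, k ∉ A → x k ∈ S) → evalF c x = 0 := by
    intro A
    induction A using Finset.induction_on with
    | empty => exact fun x hx => h x fun k => hx k (Finset.notMem_empty k)
    | insert k A hk ih =>
      intro x hx
      have h1 : ∀ u ∈ Submodule.span K S, evalF c (Function.update x k u) = 0 := by
        intro u hu
        induction hu using Submodule.span_induction with
        | mem u hu =>
          refine ih _ fun l hl => ?_
          by_cases hlk : l = k
          · subst hlk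
            rwa [Function.update_self]
          · rw [Function.update_of_ne hlk]
            exact hx l (by simp [hlk, hl])
        | zero =>
          have h2 := evalF_update_smul c x k 0 0
          rwa [zero_smul, zero_mul] at h2
        | add u v _ _ hu hv => rw [evalF_update_add, hu, hv, add_zero]
        | smul a u _ hu => rw [evalF_update_smul, hu, mul_zero]
      have h2 := h1 (x k) (by rw [hS]; trivial)
      rwa [Function.update_eq_self] at h2
  exact key Finset.univ x fun k hk => absurd (Finset.mem_univ k) hk

end

variable {G : Type*} [Fintype G] [DecidableEq G] {S : Type*} (idx : G → G → Option S)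

/-- The matrix whose entries are zero or given by the values of variables. -/
def matO {K : Type*} [Zero K] (z : S → K) : Matrix G G K := fun i j => (idx i j).elim 0 z

section

variable {k : Type*} [Field k]

open MvPolynomial in
/-- The entries of a vector of the Lagrangian subspace of a generic matrix. -/
noncomputable def vecP (b : G → k) : G ⊕ G → MvPolynomial S k :=
  Sum.elim (fun r => -∑ s, (idx r s).elim 0 MvPolynomial.X * C (b s)) (fun r => C (b r))

open MvPolynomial in
theorem aeval_vecP {K : Type*} [Field K] [Algebra k K] (z : S → K)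
    (b : G → k) (i : G ⊕ G) :
    aeval z (vecP idx b i) = vecL (matO idx z) (fun r => algebraMap k K (b r)) i := by
  rcases i with i | i
  · simp only [vecP, vecL, Sum.elim_inl, map_neg, map_sum, map_mul,
      Pi.neg_apply, mulVec, dotProduct]
    congr 1
    refine Finset.sum_congr rfl fun s _ => ?_
    rw [algHom_C]
    congr 1
    unfold matO
    rcases h : idx i s with _ | t
    · simp
    · simp
  · simp only [vecP, vecL, Sum.elim_inr]
    rw [algHom_C]

open MvPolynomial in
theorem totalDegree_vecP (b : G → k) (i : G ⊕ G) : (vecP idx b i).totalDegree ≤ 1 := by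
  rcases i with i | i
  · simp only [vecP, Sum.elim_inl, totalDegree_neg]
    refine totalDegree_finsetSum_le fun s _ => ?_
    refine (totalDegree_mul _ _).trans ?_
    rw [totalDegree_C]
    rcases h : idx i s with _ | t
    · simp
    · simp
  · simp only [vecP, Sum.elim_inr, totalDegree_C]
    exact Nat.zero_le _

open MvPolynomial in
/-- The value of a form at vectors from the Lagrangian subspace of a generic matrix outside of the
set `A` of slots. -/
noncomputable def valP {κ : Type*} [Fintype κ] [DecidableEq κ]
    (c : (κ → G ⊕ G) → k) (A : Finset κ) (b : κ → G → k)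
    (y : κ → G ⊕ G → k) : MvPolynomial S k :=
  ∑ I, C (c I) * ∏ l, if l ∈ A then C (y l (I l)) else vecP idx (b l) (I l)

open MvPolynomial in
theorem totalDegree_valP {κ : Type*} [Fintype κ] [DecidableEq κ]
    (c : (κ → G ⊕ G) → k) (A : Finset κ) (b : κ → G → k)
    (y : κ → G ⊕ G → k) : (valP idx c A b y).totalDegree ≤ Aᶜ.card := by
  unfold valP
  refine totalDegree_finsetSum_le fun I _ => ?_
  refine (totalDegree_mul _ _).trans ?_
  rw [totalDegree_C, zero_add]
  refine (totalDegree_finsetProd _ _).trans ?_
  rw [Finset.card_eq_sum_ones, ← Finset.sum_filter_add_sum_filter_not Finset.univ (fun l => l ∈ A)]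
  have h1 : ∑ l ∈ Finset.univ.filter (fun l => l ∈ A),
      (if l ∈ A then C (y l (I l)) else vecP idx (b l) (I l)).totalDegree = 0 := by
    refine Finset.sum_eq_zero fun l hl => ?_
    rw [if_pos (Finset.mem_filter.1 hl).2, totalDegree_C]
  rw [h1, zero_add]
  have h2 : Finset.univ.filter (fun l => l ∉ A) = Aᶜ := by
    ext l
    simp
  rw [h2]
  refine Finset.sum_le_sum fun l hl => ?_
  rw [if_neg (Finset.mem_compl.1 hl)]
  exact totalDegree_vecP _ _ _

open MvPolynomial in
theorem aeval_valP {κ : Type*} [Fintype κ] [DecidableEq κ] {K : Type*} [Field K] [Algebra k K]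
    (z : S → K) (c : (κ → G ⊕ G) → k) (A : Finset κ) (b : κ → G → k)
    (y : κ → G ⊕ G → k) :
    aeval z (valP idx c A b y) =
      evalF (cst K c) (fun l => if l ∈ A then (fun i => algebraMap k K (y l i)) else
        vecL (matO idx z) (fun r => algebraMap k K (b l r))) := by
  simp only [valP, evalF, map_sum, map_mul, map_prod]
  refine Finset.sum_congr rfl fun I _ => ?_
  rw [algHom_C]
  refine congrArg₂ (fun x y : K => x * y) rfl ?_
  refine Finset.prod_congr rfl fun l _ => ?_
  by_cases hl : l ∈ A
  · rw [if_pos hl, if_pos hl, algHom_C]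
  · rw [if_neg hl, if_neg hl, aeval_vecP]

end

section

variable {k : Type*} [Field k] [Algebra k ℝ] {Z : Matrix G G ℂ}

/-- A Hodge form in `2 m` variables vanishes if more than `m` of its arguments belong to the kernel
of the period map. -/
theorem isH_vanish (hY : IsUnit (imM Z).det) {κ : Type*} [Fintype κ] [DecidableEq κ]
    {c : (κ → G ⊕ G) → k} (hc : IsH (DZ Z) c) (A : Finset κ)
    (hA : 2 * A.card < Fintype.card κ)
    (x : κ → G ⊕ G → ℂ) (hx : ∀ k, k ∉ A → DZ Z *ᵥ x k = -x k) :
    evalF (cst ℂ c) x = 0 := by
  have key : ∀ (A' : Finset κ) (x : κ → G ⊕ G → ℂ), A' ⊆ A →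
      (∀ k, k ∉ A → DZ Z *ᵥ x k = -x k) →
      (∀ k, k ∈ A → k ∉ A' → DZ Z *ᵥ x k = -x k ∨ DZ Z *ᵥ x k = x k) →
      evalF (cst ℂ c) x = 0 := by
    intro A'
    induction A' using Finset.induction_on with
    | empty =>
      intro x _ h1 h2
      classical
      have h3 : ∀ k, ∃ s : ℤ, (s = -1 ∨ s = 1) ∧ DZ Z *ᵥ x k = (s : ℂ) • x k ∧
          (k ∉ A → s = -1) := by
        intro k
        by_cases hk : k ∈ A
        · rcases h2 k hk (Finset.notMem_empty k) with h | h
          · exact ⟨-1, Or.inl rfl, by rw [h]; simp, fun h => absurd hk h⟩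
          · exact ⟨1, Or.inr rfl, by rw [h]; simp, fun h => absurd hk h⟩
        · exact ⟨-1, Or.inl rfl, by rw [h1 k hk]; simp, fun _ => rfl⟩
      choose s hs1 hs2 hs3 using h3
      refine evalF_eig hc (fun k => (s k : ℂ)) x hs2 ?_
      have h4 : ∑ k, s k < 0 := by
        rw [← Finset.sum_add_sum_compl A]
        have h5 : ∑ k ∈ A, s k ≤ A.card := by
          have : ∑ k ∈ A, s k ≤ ∑ k ∈ A, (1 : ℤ) := by
            refine Finset.sum_le_sum fun k _ => ?_
            rcases hs1 k with h | h <;> omega
          simpa using this
        have h6 : ∑ k ∈ Aᶜ, s k = -(Aᶜ.card : ℤ) := by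
          rw [Finset.sum_congr rfl (fun k hk => hs3 k (Finset.mem_compl.1 hk))]
          simp
        have h7 : A.card + Aᶜ.card = Fintype.card κ := Finset.card_add_card_compl A
        omega
      have h5 : ((∑ k, s k : ℤ) : ℂ) ≠ 0 := by exact_mod_cast h4.ne
      rw [Int.cast_sum] at h5
      exact h5
    | insert k A' hk ih =>
      intro x hsub h1 h2
      obtain ⟨u, v, huv, hu, hv⟩ := exists_eig hY (x k)
      have hkA : k ∈ A := hsub (Finset.mem_insert_self _ _)
      have h3 : evalF (cst ℂ c) x = evalF (cst ℂ c) (Function.update x k u) +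
          evalF (cst ℂ c) (Function.update x k v) := by
        rw [← evalF_update_add, ← huv, Function.update_eq_self]
      have h4 : ∀ w, (DZ Z *ᵥ w = -w ∨ DZ Z *ᵥ w = w) →
          evalF (cst ℂ c) (Function.update x k w) = 0 := by
        intro w hw
        refine ih _ ((Finset.subset_insert _ _).trans hsub) ?_ ?_
        · intro l hl
          have hlk : l ≠ k := fun h => hl (h ▸ hkA)
          rw [Function.update_of_ne hlk]
          exact h1 l hl
        · intro l hl hl'
          by_cases hlk : l = k
          · subst hlk
            rwa [Function.update_self]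
          · rw [Function.update_of_ne hlk]
            exact h2 l hl (by simp [hlk, hl'])
      rw [h3, h4 u (Or.inl hu), h4 v (Or.inr hv), add_zero]
  exact key A x (Finset.Subset.refl _) hx (fun k hk hk' => absurd hk hk')

/-- If the entries of the period matrix satisfy no polynomial relation over `k` of degree less than
or equal to `d` then the Hodge forms vanish on `d` arguments from Lagrangian subspaces defined over
`k`. -/
theorem vanish_rat {z : S → ℂ} (hz : Z = matO idx z) (hY : IsUnit (imM Z).det) {d : ℕ}
    (hrel : ∀ p : MvPolynomial S k, p.totalDegree ≤ d → MvPolynomial.aeval z p = 0 → p = 0)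
    {κ : Type*} [Fintype κ] [DecidableEq κ]
    {c : (κ → G ⊕ G) → k} (hc : IsH (DZ Z) c) (A : Finset κ)
    (hA : 2 * A.card < Fintype.card κ) (hAd : Aᶜ.card ≤ d) (w : S → k)
    (x : κ → G ⊕ G → k) (hx : ∀ k, k ∉ A → ∃ b, x k = vecL (matO idx w) b) :
    evalF c x = 0 := by
  set b : κ → G → k := fun k r => x k (Sum.inr r) with hb
  have hx' : ∀ k, k ∉ A → x k = vecL (matO idx w) (b k) := by
    intro k hk
    obtain ⟨b', hb'⟩ := hx k hk
    have : b k = b' := by
      funext r
      rw [hb]
      simp only
      rw [hb']
      rfl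
    rw [this]
    exact hb'
  have h1 : valP idx c A b x = 0 := by
    refine hrel _ ((totalDegree_valP idx c A b x).trans hAd) ?_
    rw [aeval_valP, ← hz]
    refine isH_vanish hY hc A hA _ fun k hk => ?_
    rw [if_neg hk]
    exact DZ_vecL hY _
  have h2 := aeval_valP (K := k) idx w c A b x
  rw [h1, map_zero, cst_self] at h2
  rw [h2]
  congr 1
  funext l
  by_cases hk : l ∈ A
  · rw [if_pos hk]
    rfl
  · rw [if_neg hk, hx' l hk]
    rfl

end

end Pool.Agent.W437.HK
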