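import Mathlib
import Pool.Agent.W437.HK.Cubic

/-!
# Forms vanishing on all Lagrangian subspaces over a real field which are sums over blocks
-/

set_option linter.unusedSectionVars false

namespace Pool.Agent.W437.HK

open Matrix

variable {G : Type*} [Fintype G] [DecidableEq G] {ι : Type*} (cls : G → ι)

/-- The matrix is block diagonal. -/
def BlockD {K : Type*} [Zero K] (M : Matrix G G K) : Prop := ∀ i j, cls i ≠ cls j → M i j = 0

/-- The form `c` vanishes if more than one half of the arguments belong to one of the Lagrangian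
subspaces `vecL M` for block diagonal `M`. -/
def Van {k : Type*} [Field k] {κ : Type*} [Fintype κ] [DecidableEq κ] (c : (κ → G ⊕ G) → k) :
    Prop :=
  ∀ M : Matrix G G k, Mᵀ = M → BlockD cls M → ∀ A : Finset κ, 2 * A.card < Fintype.card κ →
    ∀ x : κ → G ⊕ G → k, (∀ l, l ∉ A → ∃ b, x l = vecL M b) → evalF c x = 0

section

variable {k : Type*} [Field k]

/-- The map `(a, b) ↦ vecL M (S (a + M b))`. -/
def NX (M S : Matrix G G k) : Matrix (G ⊕ G) (G ⊕ G) k :=
  fromBlocks (-(M * S)) (-(M * S * M)) S (S * M)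

/-- The map `(a, b) ↦ (a + 2 M b, -b)`. -/
def QX (M : Matrix G G k) : Matrix (G ⊕ G) (G ⊕ G) k :=
  fromBlocks 1 ((2 : k) • M) 0 (-1)

theorem NX_add (M S S' : Matrix G G k) : NX M (S + S') = NX M S + NX M S' := by
  unfold NX
  rw [fromBlocks_add]
  congr 1 <;> noncomm_ring

theorem NX_smul (M S : Matrix G G k) (a : k) : NX M (a • S) = a • NX M S := by
  unfold NX
  rw [fromBlocks_smul]
  simp only [mul_smul_comm, smul_mul_assoc, smul_neg]

theorem NX_vecL (M S N : Matrix G G k) (b : G → k) :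
    NX M S *ᵥ vecL N b = vecL M ((S * (M - N)) *ᵥ b) := by
  unfold NX vecL
  rw [fromBlocks_mulVec, Sum.elim_comp_inl, Sum.elim_comp_inr]
  have h1 : -(M * S) *ᵥ -(N *ᵥ b) + -(M * S * M) *ᵥ b = -(M *ᵥ ((S * (M - N)) *ᵥ b)) := by
    rw [mulVec_neg, neg_mulVec, neg_neg, neg_mulVec, mulVec_mulVec, mulVec_mulVec, mul_sub,
      mul_sub, sub_mulVec, ← mul_assoc, ← mul_assoc]
    abel
  have h2 : S *ᵥ -(N *ᵥ b) + (S * M) *ᵥ b = (S * (M - N)) *ᵥ b := by
    rw [mulVec_neg, mulVec_mulVec, mul_sub, sub_mulVec]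
    abel
  rw [h1, h2]

theorem QX_vecL (M N : Matrix G G k) (b : G → k) :
    QX M *ᵥ vecL N b = vecL N b - (2 : k) • vecL M b := by
  unfold QX vecL
  rw [fromBlocks_mulVec, Sum.elim_comp_inl, Sum.elim_comp_inr]
  funext i
  rcases i with i | i
  · simp only [Sum.elim_inl, Pi.sub_apply, Pi.smul_apply, Pi.add_apply, one_mulVec, smul_mulVec,
      Pi.neg_apply, smul_eq_mul]
    ring
  · simp only [Sum.elim_inr, Pi.sub_apply, Pi.smul_apply, Pi.add_apply, one_mulVec, zero_mulVec,
      neg_mulVec, Pi.zero_apply, Pi.neg_apply, smul_eq_mul]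
    ring

theorem vecL_zero {K : Type*} [Field K] (M : Matrix G G K) : vecL M 0 = 0 := by
  unfold vecL
  rw [mulVec_zero, neg_zero]
  funext i
  rcases i with i | i <;> rfl

theorem P_vecL (M S : Matrix G G k) (b : G → k) :
    (QX M - (2 : k) • NX M S) *ᵥ vecL M b = -vecL M b := by
  rw [sub_mulVec, smul_mulVec, QX_vecL, NX_vecL, sub_self, mul_zero, zero_mulVec, vecL_zero,
    smul_zero, sub_zero, two_smul]
  abel

theorem P_vecL' {M S T : Matrix G G k} (h : S * T = 1) (b : G → k) :
    (QX M - (2 : k) • NX M S) *ᵥ vecL (M + T) b = vecL (M + T) b := by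
  rw [sub_mulVec, smul_mulVec, QX_vecL, NX_vecL]
  have h1 : S * (M - (M + T)) = -1 := by
    rw [sub_add_cancel_left, mul_neg, h]
  have h2 : vecL M (-b) = -vecL M b := by
    unfold vecL
    rw [mulVec_neg, neg_neg]
    funext i
    rcases i with i | i <;> simp
  rw [h1, neg_mulVec, one_mulVec, h2, smul_neg]
  abel

end

theorem BlockD.add {K : Type*} [AddCommGroup K] {M N : Matrix G G K} (hM : BlockD cls M)
    (hN : BlockD cls N) : BlockD cls (M + N) := by
  intro i j h
  rw [Matrix.add_apply, hM i j h, hN i j h, add_zero]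

variable {k : Type*} [Field k]

/-- The form is killed by the operators with eigenvalues `-1` and `1` on two Lagrangian
subspaces. -/
theorem act_P {κ : Type*} [Fintype κ] [DecidableEq κ] {m : ℕ} (hκ : Fintype.card κ = 2 * m)
    [CharZero k] {c : (κ → G ⊕ G) → k} (hc : Van cls c) {M S T : Matrix G G k} (hM : Mᵀ = M)
    (hMb : BlockD cls M) (hT : Tᵀ = T) (hTb : BlockD cls T) (h : S * T = 1) :
    act (QX M - (2 : k) • NX M S) c = 0 := by
  classical
  set P := QX M - (2 : k) • NX M S with hP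
  apply eq_zero_of_evalF
  have hspan : Submodule.span k {x : G ⊕ G → k | (∃ b, x = vecL M b) ∨
      ∃ b, x = vecL (M + T) b} = ⊤ := by
    rw [eq_top_iff]
    intro y _
    have hT' : IsUnit (M + T - M).det := by
      rw [add_sub_cancel_left]
      exact isUnit_det_of_left_inverse h
    obtain ⟨b, b', hb⟩ := exists_decomp M (M + T) hT' y
    rw [hb]
    exact Submodule.add_mem _ (Submodule.subset_span (Or.inl ⟨b, rfl⟩))
      (Submodule.subset_span (Or.inr ⟨b', rfl⟩))
  refine evalF_span _ _ hspan fun x hx => ?_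
  set S1 : Finset κ := Finset.univ.filter (fun l => ∃ b, x l = vecL M b) with hS1
  have hS1c : ∀ l, l ∉ S1 → ∃ b, x l = vecL (M + T) b := by
    intro l hl
    exact (hx l).resolve_left fun h => hl (Finset.mem_filter.2 ⟨Finset.mem_univ _, h⟩)
  have h1 : evalF (act P c) x = (∑ l, if l ∈ S1 then (-1 : k) else 1) * evalF c x := by
    rw [evalF_act, Finset.sum_mul]
    refine Finset.sum_congr rfl fun l _ => ?_
    have h2 : P *ᵥ x l = (if l ∈ S1 then (-1 : k) else 1) • x l := by
      by_cases hk : l ∈ S1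
      · obtain ⟨b, hb⟩ := (Finset.mem_filter.1 hk).2
        rw [if_pos hk, hb, neg_one_smul]
        exact P_vecL M S b
      · obtain ⟨b, hb⟩ := hS1c l hk
        rw [if_neg hk, hb, one_smul]
        exact P_vecL' h b
    rw [h2, evalF_update_smul, Function.update_eq_self]
  have hcard : S1.card + S1ᶜ.card = Fintype.card κ := Finset.card_add_card_compl S1
  rw [h1]
  rcases lt_trichotomy S1.card m with h2 | h2 | h2
  · have h3 : evalF c x = 0 := hc (M + T) (by rw [transpose_add, hM, hT]) (hMb.add cls hTb) S1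
      (by omega) x hS1c
    rw [h3, mul_zero]
  · have h3 : (∑ l, if l ∈ S1 then (-1 : k) else 1) = 0 := by
      rw [← Finset.sum_add_sum_compl S1, Finset.sum_congr rfl (fun k hk => if_pos hk),
        Finset.sum_congr (s₁ := S1ᶜ) rfl (fun k hk => if_neg (Finset.mem_compl.1 hk))]
      simp only [Finset.sum_const, nsmul_eq_mul, mul_neg, mul_one]
      have h4 : S1ᶜ.card = S1.card := by omega
      rw [h4]
      ring
    rw [h3, zero_mul]
  · have h3 : evalF c x = 0 := by
      refine hc M hM hMb S1ᶜ (by omega) x fun l hk => ?_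
      rw [Finset.notMem_compl] at hk
      exact (Finset.mem_filter.1 hk).2
    rw [h3, mul_zero]

theorem act_NX {κ : Type*} [Fintype κ] [DecidableEq κ] {m : ℕ} (hκ : Fintype.card κ = 2 * m)
    [CharZero k] {c : (κ → G ⊕ G) → k} (hc : Van cls c) {M S T : Matrix G G k} (hM : Mᵀ = M)
    (hMb : BlockD cls M) (hT : Tᵀ = T) (hTb : BlockD cls T) (h : S * T = 1) :
    act (NX M S) c = 0 := by
  have h1 := act_P cls hκ hc hM hMb hT hTb h
  have h2 := act_P cls (S := (2 : k) • S) (T := (2⁻¹ : k) • T) hκ hc hM hMb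
    (by rw [transpose_smul, hT]) (by
      intro i j hij
      rw [Matrix.smul_apply, hTb i j hij, smul_zero]) (by
      rw [smul_mul_smul_comm, h]
      norm_num)
  rw [NX_smul] at h2
  rw [act_sub_left, act_smul_left] at h1 h2
  rw [act_smul_left] at h2
  have h3 := congrArg₂ (fun x y : (κ → G ⊕ G) → k => x - y) h1 h2
  simp only [sub_zero] at h3
  funext I
  have h4 := congrFun h3 I
  simp only [Pi.sub_apply, Pi.smul_apply, smul_eq_mul, Pi.zero_apply] at h4
  rw [Pi.zero_apply]
  have h5 : (2 : k) * act (NX M S) c I = 0 := by linear_combination h4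
  exact (mul_eq_zero.1 h5).resolve_left two_ne_zero

variable [Algebra k ℝ]

theorem dot_self_ne {b : G → k} (hb : b ≠ 0) : b ⬝ᵥ b ≠ 0 := by
  intro h
  apply hb
  have h1 : ∑ i, algebraMap k ℝ (b i) * algebraMap k ℝ (b i) = 0 := by
    have h2 := congrArg (algebraMap k ℝ) h
    rw [dotProduct, map_sum, map_zero] at h2
    rw [← h2]
    refine Finset.sum_congr rfl fun i _ => by rw [map_mul]
  funext i
  have h2 := (Finset.sum_eq_zero_iff_of_nonneg (fun i _ => mul_self_nonneg _)).1 h1 i
    (Finset.mem_univ i)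
  exact (map_eq_zero (algebraMap k ℝ)).1 (mul_self_eq_zero.1 h2)

theorem one_add_dot_self_ne (b : G → k) : 1 + b ⬝ᵥ b ≠ 0 := by
  intro h
  have h2 := congrArg (algebraMap k ℝ) h
  rw [map_add, map_one, dotProduct, map_sum, map_zero] at h2
  have h3 : 0 ≤ ∑ i, algebraMap k ℝ (b i * b i) := by
    refine Finset.sum_nonneg fun i _ => ?_
    rw [map_mul]
    exact mul_self_nonneg _
  linarith

theorem charZero_of_real : CharZero k := by
  refine ⟨fun a b h => ?_⟩
  have h2 := congrArg (algebraMap k ℝ) h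
  rw [map_natCast, map_natCast] at h2
  exact Nat.cast_injective h2

theorem act_NX_rank (κ : Type*) [Fintype κ] [DecidableEq κ] {m : ℕ} (hκ : Fintype.card κ = 2 * m)
    {c : (κ → G ⊕ G) → k} (hc : Van cls c) {M : Matrix G G k} (hM : Mᵀ = M) (hMb : BlockD cls M)
    (b : G → k) (hb : BlockD cls (vecMulVec b b)) : act (NX M (vecMulVec b b)) c = 0 := by
  have : CharZero k := charZero_of_real
  have hone : BlockD cls (1 : Matrix G G k) := by
    intro i j hij
    exact Matrix.one_apply_ne fun h => hij (by rw [h])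
  have h1 : act (NX M 1) c = 0 := act_NX cls (T := 1) hκ hc hM hMb transpose_one hone (mul_one 1)
  have hs : (1 + b ⬝ᵥ b) ≠ 0 := one_add_dot_self_ne b
  have h2 : act (NX M (1 + vecMulVec b b)) c = 0 := by
    refine act_NX cls (T := 1 - (1 + b ⬝ᵥ b)⁻¹ • vecMulVec b b) hκ hc hM hMb ?_ ?_ ?_
    · rw [transpose_sub, transpose_one, transpose_smul, transpose_vecMulVec]
    · intro i j hij
      rw [Matrix.sub_apply, Matrix.smul_apply, hone i j hij, hb i j hij, smul_zero, sub_zero]
    · have hV : vecMulVec b b * vecMulVec b b = (b ⬝ᵥ b) • vecMulVec b b := by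
        rw [vecMulVec_mul_vecMulVec, vecMulVec_smul]
      have h3 : (1 + vecMulVec b b) * (1 - (1 + b ⬝ᵥ b)⁻¹ • vecMulVec b b) =
          1 + (1 - (1 + b ⬝ᵥ b)⁻¹ - (1 + b ⬝ᵥ b)⁻¹ * (b ⬝ᵥ b)) • vecMulVec b b := by
        rw [mul_sub, mul_one, mul_smul_comm, add_mul, one_mul, hV, sub_smul, sub_smul, one_smul,
          smul_add, smul_smul]
        abel
      rw [h3]
      have h4 : 1 - (1 + b ⬝ᵥ b)⁻¹ - (1 + b ⬝ᵥ b)⁻¹ * (b ⬝ᵥ b) = 0 := by
        field_simp
        ring
      rw [h4, zero_smul, add_zero]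
  rw [NX_add, act_add_left, h1, zero_add] at h2
  exact h2

theorem NX_eq {M : Matrix G G k} (hM : Mᵀ = M) (b : G → k) :
    vecMulVec (vecL M b) (vecL M b) * Om G k = -NX M (vecMulVec b b) := by
  rw [vecMulVec_mul]
  have h1 : vecL M b ᵥ* Om G k = Sum.elim (-b) (-(M *ᵥ b)) := by
    unfold vecL Om
    rw [vecMul_fromBlocks]
    rw [Sum.elim_comp_inl, Sum.elim_comp_inr]
    simp [vecMul_neg]
  rw [h1]
  have hb : ∀ j, (b ᵥ* M) j = (M *ᵥ b) j := by
    intro j
    rw [← mulVec_transpose, hM]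
  ext i j
  rw [Matrix.neg_apply]
  rcases i with i | i <;> rcases j with j | j
  · simp only [vecMulVec_apply, vecL, NX, Sum.elim_inl, fromBlocks_apply₁₁, Matrix.neg_apply,
      mul_vecMulVec, Pi.neg_apply]
    ring
  · simp only [vecMulVec_apply, vecL, NX, Sum.elim_inl, Sum.elim_inr, fromBlocks_apply₁₂,
      Matrix.neg_apply, mul_vecMulVec, vecMulVec_mul, Pi.neg_apply, hb]
    ring
  · simp only [vecMulVec_apply, vecL, NX, Sum.elim_inl, Sum.elim_inr, fromBlocks_apply₂₁,
      Pi.neg_apply]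
    ring
  · simp only [vecMulVec_apply, vecL, NX, Sum.elim_inr, fromBlocks_apply₂₂,
      vecMulVec_mul, Pi.neg_apply, hb]
    ring

theorem exists_symm {c0 : ι} {b : G → k} (hb : b ≠ 0) (hb0 : ∀ i, cls i ≠ c0 → b i = 0)
    (a : G → k) (ha0 : ∀ i, cls i ≠ c0 → a i = 0) :
    ∃ M : Matrix G G k, Mᵀ = M ∧ BlockD cls M ∧ M *ᵥ b = a := by
  have hs : b ⬝ᵥ b ≠ 0 := dot_self_ne hb
  set w : G → k := (b ⬝ᵥ b)⁻¹ • b with hw
  have hw0 : ∀ i, cls i ≠ c0 → w i = 0 := by
    intro i hi
    rw [hw, Pi.smul_apply, hb0 i hi, smul_zero]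
  have hwb : w ⬝ᵥ b = 1 := by
    rw [hw, smul_dotProduct, smul_eq_mul, inv_mul_cancel₀ hs]
  refine ⟨vecMulVec a w + vecMulVec w a - (a ⬝ᵥ b) • vecMulVec w w, ?_, ?_, ?_⟩
  · rw [transpose_sub, transpose_add, transpose_smul, transpose_vecMulVec, transpose_vecMulVec,
      transpose_vecMulVec]
    abel
  · intro i j hij
    simp only [Matrix.sub_apply, Matrix.add_apply, Matrix.smul_apply, vecMulVec_apply, smul_eq_mul]
    by_cases hi : cls i = c0
    · have hj : cls j ≠ c0 := fun h => hij (by rw [hi, h])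
      rw [ha0 j hj, hw0 j hj]
      ring
    · rw [ha0 i hi, hw0 i hi]
      ring
  · rw [sub_mulVec, add_mulVec, smul_mulVec]
    simp only [vecMulVec_mulVec, hwb]
    funext i
    simp

/-- A form vanishing on the Lagrangian subspaces is killed by the symplectic Lie algebras of the
blocks. -/
theorem Van.act_eq_zero {κ : Type*} [Fintype κ] [DecidableEq κ] {m : ℕ}
    (hκ : Fintype.card κ = 2 * m) {c : (κ → G ⊕ G) → k} (hc : Van cls c) {c0 : ι}
    (x : G ⊕ G → k) (hx0 : ∀ i, cls (Sum.elim id id i) ≠ c0 → x i = 0) :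
    act (vecMulVec x x * Om G k) c = 0 := by
  have : CharZero k := charZero_of_real
  have h1 : ∀ (a b : G → k), b ≠ 0 → (∀ i, cls i ≠ c0 → a i = 0) →
      (∀ i, cls i ≠ c0 → b i = 0) →
      act (vecMulVec (Sum.elim a b) (Sum.elim a b) * Om G k) c = 0 := by
    intro a b hb ha0 hb0
    obtain ⟨M, hM, hMb, hMM⟩ := exists_symm cls hb hb0 (-a) (fun i hi => by
      rw [Pi.neg_apply, ha0 i hi, neg_zero])
    have h2 : Sum.elim a b = vecL M b := by
      unfold vecL
      rw [hMM, neg_neg]
    have h3 : BlockD cls (vecMulVec b b) := by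
      intro i j hij
      rw [vecMulVec_apply]
      by_cases hi : cls i = c0
      · have hj : cls j ≠ c0 := fun h => hij (by rw [hi, h])
        rw [hb0 j hj, mul_zero]
      · rw [hb0 i hi, zero_mul]
    rw [h2, NX_eq hM, act_neg_left, act_NX_rank cls κ hκ hc hM hMb b h3, neg_zero]
  set a : G → k := fun i => x (Sum.inl i) with ha
  set b : G → k := fun i => x (Sum.inr i) with hb
  have ha0 : ∀ i, cls i ≠ c0 → a i = 0 := fun i hi => hx0 (Sum.inl i) hi
  have hb0' : ∀ i, cls i ≠ c0 → b i = 0 := fun i hi => hx0 (Sum.inr i) hi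
  have hx : x = Sum.elim a b := by
    funext i
    rcases i with i | i <;> rfl
  rw [hx]
  by_cases hb0 : b = 0
  · by_cases hg : ∃ i0, cls i0 = c0
    · obtain ⟨i0, hi0⟩ := hg
      set e : G → k := Pi.single i0 1 with he
      have he0 : e ≠ 0 := by
        intro h
        have := congrFun h i0
        rw [he] at this
        simp at this
      have hes : ∀ i, cls i ≠ c0 → e i = 0 := by
        intro i hi
        rw [he, Pi.single_eq_of_ne]
        rintro rfl
        exact hi hi0
      have h3 := h1 a e he0 ha0 hes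
      have h4 := h1 (-a) e he0 (fun i hi => by rw [Pi.neg_apply, ha0 i hi, neg_zero]) hes
      have h5 := h1 0 e he0 (fun i _ => rfl) hes
      have h6 : vecMulVec (Sum.elim a b) (Sum.elim a b) * Om G k =
          (2⁻¹ : k) • (vecMulVec (Sum.elim a e) (Sum.elim a e) * Om G k) +
            (2⁻¹ : k) • (vecMulVec (Sum.elim (-a) e) (Sum.elim (-a) e) * Om G k) -
            vecMulVec (Sum.elim 0 e) (Sum.elim 0 e) * Om G k := by
        rw [← smul_mul_assoc, ← smul_mul_assoc, ← add_mul, ← sub_mul, hb0]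
        congr 1
        ext i j
        rcases i with i | i <;> rcases j with j | j <;> simp [vecMulVec_apply] <;> ring
      rw [h6, act_sub_left, act_add_left, act_smul_left, act_smul_left, h3, h4, h5]
      simp
    · have ha1 : a = 0 := by
        funext i
        exact ha0 i fun h => hg ⟨i, h⟩
      rw [ha1, hb0]
      have h2 : (Sum.elim 0 0 : G ⊕ G → k) = 0 := by
        funext i
        rcases i with i | i <;> rfl
      rw [h2, vecMulVec_zero, zero_mul, act_zero_left]
  · exact h1 a b hb0 ha0 hb0'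

end Pool.Agent.W437.HK
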