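import Mathlib
import Pool.Agent.W437.HK.Casimir
import Pool.Agent.W437.HK.Kill

/-!
# The Lie algebra of a block diagonal period matrix without cubic relations
-/

set_option linter.unusedSectionVars false

namespace Pool.Agent.W437.HK

open Matrix

section

variable {B : Type*} [Fintype B] [DecidableEq B]

/-- A matrix of rank one in the symplectic Lie algebra of `Om`. -/
def rk1 {K : Type*} [Field K] (Om : Matrix B B K) (u : B → K) : Matrix B B K :=
  vecMulVec u u * Om

theorem rk1_sp {K : Type*} [Field K] {Om : Matrix B B K} (hOm : Omᵀ = -Om) (u : B → K) :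
    (rk1 Om u)ᵀ * Om + Om * rk1 Om u = 0 := by
  unfold rk1
  rw [transpose_mul, transpose_vecMulVec, hOm]
  noncomm_ring

theorem rk1_mid {K : Type*} [Field K] (Om X : Matrix B B K) (u : B → K) :
    rk1 Om u * X * rk1 Om u = (u ⬝ᵥ ((Om * X) *ᵥ u)) • rk1 Om u := by
  unfold rk1
  rw [mul_assoc (vecMulVec u u) Om X, ← mul_assoc _ (vecMulVec u u) Om,
    mul_assoc (vecMulVec u u) (Om * X) (vecMulVec u u), mul_vecMulVec, vecMulVec_mul_vecMulVec,
    vecMulVec_smul, smul_mul_assoc]

theorem rk1_sq {K : Type*} [Field K] [CharZero K] {Om : Matrix B B K} (hOm : Omᵀ = -Om)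
    (u : B → K) : rk1 Om u * rk1 Om u = 0 := by
  have h0 : u ⬝ᵥ (Om *ᵥ u) = 0 := by
    have h1 : u ⬝ᵥ (Om *ᵥ u) = -(u ⬝ᵥ (Om *ᵥ u)) := by
      nth_rewrite 1 [dotProduct_mulVec, ← mulVec_transpose, hOm, neg_mulVec, neg_dotProduct,
        dotProduct_comm]
      rfl
    have h2 : (2 : K) * (u ⬝ᵥ (Om *ᵥ u)) = 0 := by linear_combination h1
    exact (mul_eq_zero.1 h2).resolve_left two_ne_zero
  have h1 := rk1_mid Om 1 u
  rw [mul_one, mul_one, h0, zero_smul] at h1
  exact h1

/-- A subspace of the symplectic Lie algebra which is stable under brackets with the elements of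
rank one given by vectors of a subspace `U` contains all these elements, if it contains an element
with a nonzero value on `U`. -/
theorem rk1_mem {K : Type*} [Field K] [CharZero K] {Om : Matrix B B K} (hOm : Omᵀ = -Om)
    (L : Submodule K (Matrix B B K)) (U : Submodule K (B → K))
    (hL : ∀ X ∈ L, ∀ u ∈ U, rk1 Om u * X - X * rk1 Om u ∈ L) {X : Matrix B B K} (hX : X ∈ L)
    (hXs : Xᵀ * Om + Om * X = 0) {u0 : B → K} (hu0U : u0 ∈ U)
    (hu0 : u0 ⬝ᵥ ((Om * X) *ᵥ u0) ≠ 0) {w : B → K} (hw : w ∈ U) : rk1 Om w ∈ L := by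
  -- the quadratic form
  set q : (B → K) → K := fun u => u ⬝ᵥ ((Om * X) *ᵥ u) with hq
  have h1 : ∀ u ∈ U, q u ≠ 0 → rk1 Om u ∈ L := by
    intro u huU hu
    have h2 := hL _ (hL X hX u huU) u huU
    have h3 : rk1 Om u * (rk1 Om u * X - X * rk1 Om u) - (rk1 Om u * X - X * rk1 Om u) * rk1 Om u
        = (-2 * q u) • rk1 Om u := by
      have h4 : rk1 Om u * (rk1 Om u * X - X * rk1 Om u) -
          (rk1 Om u * X - X * rk1 Om u) * rk1 Om u = (rk1 Om u * rk1 Om u) * X -
            (2 : K) • (rk1 Om u * X * rk1 Om u) + X * (rk1 Om u * rk1 Om u) := by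
        rw [two_smul]
        noncomm_ring
      rw [h4, rk1_sq hOm, rk1_mid, zero_mul, mul_zero, add_zero, zero_sub, smul_smul, ← neg_smul,
        neg_mul]
    rw [h3] at h2
    have h5 : (-2 * q u)⁻¹ • ((-2 * q u) • rk1 Om u) ∈ L := Submodule.smul_mem _ _ h2
    rwa [smul_smul, inv_mul_cancel₀ (mul_ne_zero (by norm_num) hu), one_smul] at h5
  have hsym : (Om * X)ᵀ = Om * X := by
    rw [transpose_mul, hOm, mul_neg, eq_neg_of_add_eq_zero_left hXs, neg_neg]
  have hbil : ∀ u v, q (u + v) = q u + 2 * (u ⬝ᵥ ((Om * X) *ᵥ v)) + q v := by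
    intro u v
    have h2 : v ⬝ᵥ ((Om * X) *ᵥ u) = u ⬝ᵥ ((Om * X) *ᵥ v) := by
      rw [dotProduct_comm, dotProduct_mulVec u, ← mulVec_transpose, hsym]
    simp only [hq, mulVec_add, dotProduct_add, add_dotProduct, h2]
    ring
  have hu0L := h1 u0 hu0U hu0
  set β := u0 ⬝ᵥ ((Om * X) *ᵥ w) with hβ
  have hqt : ∀ t : K, q (t • u0 + w) = q u0 * t ^ 2 + 2 * β * t + q w := by
    intro t
    rw [hbil]
    simp only [hq, hβ, smul_dotProduct, mulVec_smul, dotProduct_smul, smul_eq_mul]
    ring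
  obtain ⟨t, ht1, ht2⟩ : ∃ t : K, q (t • u0 + w) ≠ 0 ∧ q ((-t) • u0 + w) ≠ 0 := by
    by_contra hcon
    push Not at hcon
    have h2 : (Polynomial.C (q u0) * Polynomial.X ^ 2 + Polynomial.C (2 * β) * Polynomial.X +
        Polynomial.C (q w)) * (Polynomial.C (q u0) * Polynomial.X ^ 2 +
          Polynomial.C (-(2 * β)) * Polynomial.X + Polynomial.C (q w)) = 0 := by
      apply Polynomial.funext
      intro t
      rw [Polynomial.eval_mul, Polynomial.eval_zero]
      simp only [Polynomial.eval_add, Polynomial.eval_mul, Polynomial.eval_C, Polynomial.eval_pow,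
        Polynomial.eval_X]
      by_cases h3 : q (t • u0 + w) = 0
      · rw [hqt] at h3
        rw [h3, zero_mul]
      · have h4 := hcon t h3
        rw [hqt] at h4
        have h5 : q u0 * t ^ 2 + -(2 * β) * t + q w = 0 := by linear_combination h4
        rw [h5, mul_zero]
    rcases mul_eq_zero.1 h2 with h3 | h3
    · have h4 := congrArg (fun p => Polynomial.coeff p 2) h3
      simp at h4
      exact hu0 h4
    · have h4 := congrArg (fun p => Polynomial.coeff p 2) h3
      simp at h4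
      exact hu0 h4
  have h2 := h1 _ (Submodule.add_mem _ (Submodule.smul_mem _ _ hu0U) hw) ht1
  have h3 := h1 _ (Submodule.add_mem _ (Submodule.smul_mem _ _ hu0U) hw) ht2
  have h4 : rk1 Om w = (2⁻¹ : K) • rk1 Om (t • u0 + w) + (2⁻¹ : K) • rk1 Om ((-t) • u0 + w) -
      (t ^ 2) • rk1 Om u0 := by
    unfold rk1
    rw [← smul_mul_assoc, ← smul_mul_assoc, ← smul_mul_assoc, ← add_mul, ← sub_mul]
    congr 1
    ext i j
    simp only [Matrix.sub_apply, Matrix.add_apply, Matrix.smul_apply, vecMulVec_apply,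
      Pi.add_apply, Pi.smul_apply, smul_eq_mul]
    ring
  rw [h4]
  exact Submodule.sub_mem _ (Submodule.add_mem _ (Submodule.smul_mem _ _ h2)
    (Submodule.smul_mem _ _ h3)) (Submodule.smul_mem _ _ hu0L)

end

variable {G : Type*} [Fintype G] [DecidableEq G]

theorem Om_unit (K : Type*) [CommRing K] : IsUnit (Om G K) := by
  refine ⟨⟨Om G K, -Om G K, ?_, ?_⟩, rfl⟩
  · rw [mul_neg, Om_sq, neg_neg]
  · rw [neg_mul, Om_sq, neg_neg]

variable {Z : Matrix G G ℂ} {k : Type*} [Field k] [Algebra k ℝ] {ι : Type*} {cls : G → ι}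
  {S : Type*} {idx : G → G → Option S} {z : S → ℂ}

/-- Forms on four vectors that vanish on the Lagrangian subspaces. -/
theorem van_four (hz : Z = matO idx z) (hY : IsUnit (imM Z).det)
    (hidx : ∀ M : Matrix G G k, Mᵀ = M → BlockD cls M → ∃ w : S → k, M = matO idx w)
    (hrel : ∀ p : MvPolynomial S k, p.totalDegree ≤ 3 → MvPolynomial.aeval z p = 0 → p = 0)
    {c : (Fin 4 → G ⊕ G) → k} (hc : IsH (DZ Z) c) : Van cls c := by
  intro M hM hMb A hA x hx
  rw [Fintype.card_fin] at hA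
  obtain ⟨w, rfl⟩ := hidx M hM hMb
  obtain ⟨A', hAA', hA'⟩ : ∃ A' : Finset (Fin 4), A ⊆ A' ∧ A'.card = 1 := by
    obtain ⟨A', h1, _, h2⟩ := Finset.exists_subsuperset_card_eq (Finset.subset_univ A)
      (n := 1) (by omega) (by simp)
    exact ⟨A', h1, h2⟩
  refine vanish_rat idx hz hY hrel hc A' (by rw [hA']; simp) ?_ w x
    fun k hk => hx k fun h => hk (hAA' h)
  rw [Finset.card_compl, hA']
  simp

/-- The Lie algebra over `k` is stable under the brackets with the symplectic Lie algebras of the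
blocks. -/
theorem lie_ideal (hZ : Zᵀ = Z) (hpos : (imM Z).PosDef) (hz : Z = matO idx z)
    (hidx : ∀ M : Matrix G G k, Mᵀ = M → BlockD cls M → ∃ w : S → k, M = matO idx w)
    (hrel : ∀ p : MvPolynomial S k, p.totalDegree ≤ 3 → MvPolynomial.aeval z p = 0 → p = 0)
    {X : Matrix (G ⊕ G) (G ⊕ G) k} (hX : X ∈ lieM k (DZ Z) k) {c0 : ι} (u : G ⊕ G → k)
    (hu : ∀ i, cls (Sum.elim id id i) ≠ c0 → u i = 0) :
    rk1 (Om G k) u * X - X * rk1 (Om G k) u ∈ lieM k (DZ Z) k := by
  have hY : IsUnit (imM Z).det := hpos.isUnit.map Matrix.detMonoidHom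
  obtain ⟨p, hp1, hp2, hp3⟩ := exists_projection (k := k) (DZ Z) (trace_nondeg hZ hpos)
  have h1 : IsH (DZ Z) (theta p (Om G k)) :=
    isH_of_rat _ fun X hX => act_theta_eq_zero (lie_sp hZ hX) (hp3 X hX)
  have h2 : Van cls (theta p (Om G k)) := van_four hz hY hidx hrel h1
  have h3 : act (rk1 (Om G k) u) (theta p (Om G k)) = 0 :=
    h2.act_eq_zero cls (m := 2) (by simp) u hu
  have h4 := comm_of_act (Om_unit k) (rk1_sp (Om_transpose k) u) h3 X
  rw [hp2 X hX] at h4
  rw [← h4]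
  exact hp1 _

/-- The Lie algebra over `k` contains the symplectic Lie algebras of the blocks. -/
theorem rk1_mem_lie (hZ : Zᵀ = Z) (hpos : (imM Z).PosDef) (hz : Z = matO idx z)
    (hidx : ∀ M : Matrix G G k, Mᵀ = M → BlockD cls M → ∃ w : S → k, M = matO idx w)
    (hrel : ∀ p : MvPolynomial S k, p.totalDegree ≤ 3 → MvPolynomial.aeval z p = 0 → p = 0)
    {c0 : ι} (w : G ⊕ G → k) (hw : ∀ i, cls (Sum.elim id id i) ≠ c0 → w i = 0) :
    rk1 (Om G k) w ∈ lieM k (DZ Z) k := by
  have : CharZero k := charZero_of_real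
  have hY : IsUnit (imM Z).det := hpos.isUnit.map Matrix.detMonoidHom
  by_cases hg : ∃ i0, cls i0 = c0
  · obtain ⟨i0, hi0⟩ := hg
    have h1 : 0 < (Om G ℝ * JR Z) (Sum.inl i0) (Sum.inl i0) := (OmJ_posDef hZ hpos).diag_pos
    obtain ⟨lam, hlam⟩ : ∃ lam : ℝ →ₗ[k] k, lam ((Om G ℝ * JR Z) (Sum.inl i0) (Sum.inl i0)) ≠ 0 := by
      by_contra hcon
      push Not at hcon
      exact h1.ne' (eq_zero_of_lam k hcon)
    have h2 : (JR Z).map lam ∈ lieM k (DZ Z) k := map_mem _ (JR_mem k Z) lam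
    have h3 : (Om G k * (JR Z).map lam) (Sum.inl i0) (Sum.inl i0) =
        lam ((Om G ℝ * JR Z) (Sum.inl i0) (Sum.inl i0)) := by
      rw [Matrix.mul_apply, Matrix.mul_apply, map_sum]
      refine Finset.sum_congr rfl fun j _ => ?_
      rw [← Om_map k ℝ, Matrix.map_apply, Matrix.map_apply, ← Algebra.smul_def, map_smul,
        smul_eq_mul]
    let U : Submodule k (G ⊕ G → k) :=
      { carrier := {u | ∀ i, cls (Sum.elim id id i) ≠ c0 → u i = 0}
        zero_mem' := fun i _ => rfl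
        add_mem' := by
          intro a b ha hb i hi
          rw [Pi.add_apply, ha i hi, hb i hi, add_zero]
        smul_mem' := by
          intro a b hb i hi
          rw [Pi.smul_apply, hb i hi, smul_zero] }
    refine rk1_mem (Om_transpose k) _ U (fun X hX u hu => lie_ideal hZ hpos hz hidx hrel hX u hu) h2
      (lie_sp hZ h2) (u0 := Pi.single (Sum.inl i0) 1) ?_ ?_ hw
    · intro i hi
      rw [Pi.single_eq_of_ne]
      rintro rfl
      exact hi hi0
    · rw [mulVec_single_one, single_one_dotProduct]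
      change (Om G k * (JR Z).map lam) (Sum.inl i0) (Sum.inl i0) ≠ 0
      rw [h3]
      exact hlam
  · have h1 : w = 0 := by
      funext i
      exact hw i fun h => hg ⟨_, h⟩
    have h4 : rk1 (Om G k) w = 0 := by
      unfold rk1
      rw [h1, vecMulVec_zero, zero_mul]
    rw [h4]
    exact Submodule.zero_mem _

end Pool.Agent.W437.HK
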