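import Mathlib
import Pool.Agent.H204R3.GP.FFT
import Pool.Agent.W437.HK.Sp

/-!
# The forms killed by the symplectic Lie algebras of the blocks
-/

set_option linter.unusedSectionVars false

namespace Pool.Agent.W437.HK

open Matrix Pool.Agent.H204R3.SP Pool.Agent.H204R3.GP

variable {G : Type*} [Fintype G] [DecidableEq G] {k : Type*} [Field k] [CharZero k]
  {ι : Type*} [Fintype ι] [DecidableEq ι] (cls : G → ι)

/-- The class of a basis vector. -/
def cl2 (y : G ⊕ G) : ι := cls (Sum.elim id id y)

/-- The signs of the symplectic form on the basis vectors. -/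
def sgn2 (G k : Type*) [Field k] : G ⊕ G → k := Sum.elim (fun _ => 1) (fun _ => -1)

theorem JJ_eq (x y : G ⊕ G) : JJ Sum.swap (sgn2 G k) x y = Om G k x y := by
  rcases x with x | x <;> rcases y with y | y
  · simp [JJ, Om]
  · simp [JJ, Om, sgn2, Matrix.one_apply, eq_comm]
  · simp only [JJ, Om, sgn2, Sum.swap_inr, Sum.inl.injEq, Sum.elim_inr, fromBlocks_apply₂₁,
      Matrix.neg_apply, Matrix.one_apply, eq_comm (a := y)]
    split_ifs <;> simp
  · simp [JJ, Om]

theorem cl2_swap (y : G ⊕ G) : cl2 cls (Sum.swap y) = cl2 cls y := by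
  rcases y with y | y <;> rfl

/-- The part of a form of a given type. -/
def typ {κ : Type*} [Fintype κ] (τ : κ → ι) (c : (κ → G ⊕ G) → k) : (κ → G ⊕ G) → k :=
  fun I => if ∀ l, cl2 cls (I l) = τ l then c I else 0

theorem sum_typ {κ : Type*} [Fintype κ] [DecidableEq κ] (c : (κ → G ⊕ G) → k) :
    ∑ τ : κ → ι, typ cls τ c = c := by
  funext I
  rw [Finset.sum_apply, Finset.sum_eq_single (fun l => cl2 cls (I l))]
  · unfold typ
    rw [if_pos fun _ => rfl]
  · intro τ _ hτ
    unfold typ
    rw [if_neg]
    intro h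
    exact hτ (funext fun l => (h l).symm)
  · intro h
    exact absurd (Finset.mem_univ _) h

theorem bracket_zero {κ : Type*} [Fintype κ] [DecidableEq κ] {c : (κ → G ⊕ G) → k}
    (h : ∀ (c0 : ι) (w : G ⊕ G → k), (∀ i, cls (Sum.elim id id i) ≠ c0 → w i = 0) →
      act (rk1 (Om G k) w) c = 0) (b d : G ⊕ G) (hbd : cl2 cls b = cl2 cls d) (I : κ → G ⊕ G) :
    ∑ l, (Om G k b (I l) * c (Function.update I l d) +
      Om G k d (I l) * c (Function.update I l b)) = 0 := by
  have hb : ∀ i, cls (Sum.elim id id i) ≠ cl2 cls b → (Pi.single b 1 : G ⊕ G → k) i = 0 := by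
    intro i hi
    rw [Pi.single_eq_of_ne]
    rintro rfl
    exact hi rfl
  have hd : ∀ i, cls (Sum.elim id id i) ≠ cl2 cls b → (Pi.single d 1 : G ⊕ G → k) i = 0 := by
    intro i hi
    rw [Pi.single_eq_of_ne]
    rintro rfl
    exact hi hbd.symm
  have h1 : act (vecMulVec (Pi.single b 1) (Pi.single d 1) * Om G k +
      vecMulVec (Pi.single d 1) (Pi.single b 1) * Om G k) c = 0 := by
    have h2 : vecMulVec (Pi.single b 1) (Pi.single d 1) * Om G k +
      vecMulVec (Pi.single d 1) (Pi.single b 1) * Om G k =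
        rk1 (Om G k) (Pi.single b 1 + Pi.single d 1) - rk1 (Om G k) (Pi.single b 1) -
          rk1 (Om G k) (Pi.single d 1) := by
      unfold rk1
      rw [← add_mul, ← sub_mul, ← sub_mul]
      congr 1
      rw [vecMulVec_add, add_vecMulVec, add_vecMulVec]
      abel
    rw [h2, act_sub_left, act_sub_left, h _ _ (fun i hi => by
      rw [Pi.add_apply, hb i hi, hd i hi, add_zero]), h _ _ hb, h _ _ hd, sub_zero, sub_zero]
  have h3 := congrFun h1 I
  rw [Pi.zero_apply] at h3
  rw [← h3]
  simp only [act]
  refine Finset.sum_congr rfl fun l _ => ?_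
  simp only [Matrix.add_apply, vecMulVec_mul, vecMulVec_apply, single_vecMul, add_mul,
    Finset.sum_add_distrib]
  rw [Finset.sum_eq_single b, Finset.sum_eq_single d]
  · simp
    ring
  · intro j _ hj
    rw [Pi.single_eq_of_ne hj, zero_mul, zero_mul]
  · intro h
    exact absurd (Finset.mem_univ _) h
  · intro j _ hj
    rw [Pi.single_eq_of_ne hj, zero_mul, zero_mul]
  · intro h
    exact absurd (Finset.mem_univ _) h

theorem typ_mem {κ : Type*} [Fintype κ] [DecidableEq κ] {c : (κ → G ⊕ G) → k}
    (h : ∀ (c0 : ι) (w : G ⊕ G → k), (∀ i, cls (Sum.elim id id i) ≠ c0 → w i = 0) →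
      act (rk1 (Om G k) w) c = 0) (τ : κ → ι) :
    typ cls τ c ∈ InvG (cl2 cls) Sum.swap (sgn2 G k) κ τ := by
  refine ⟨fun b d hbd I => ?_, fun I hI l => ?_⟩
  · rw [cl2_swap] at hbd
    have key : ∀ (x y : G ⊕ G), cl2 cls x = cl2 cls y → ∀ l,
        JJ Sum.swap (sgn2 G k) x (I l) * typ cls τ c (Function.update I l y) =
        if ∀ l, cl2 cls (I l) = τ l then Om G k x (I l) * c (Function.update I l y) else 0 := by
      intro x y hxy l
      rw [JJ_eq]
      by_cases hx : I l = Sum.swap x
      · have h1 : cl2 cls (I l) = cl2 cls y := by rw [hx, cl2_swap, hxy]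
        have h2 : (∀ l', cl2 cls (Function.update I l y l') = τ l') ↔
            ∀ l', cl2 cls (I l') = τ l' := by
          refine forall_congr' fun l' => ?_
          by_cases hl : l' = l
          · subst hl
            rw [Function.update_self, h1]
          · rw [Function.update_of_ne hl]
        unfold typ
        by_cases h3 : ∀ l', cl2 cls (I l') = τ l'
        · rw [if_pos (h2.2 h3), if_pos h3]
        · rw [if_neg (fun h => h3 (h2.1 h)), if_neg h3, mul_zero]
      · have h1 : Om G k x (I l) = 0 := by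
          rw [← JJ_eq]
          unfold JJ
          rw [if_neg hx]
        rw [h1, zero_mul, zero_mul]
        split_ifs <;> rfl
    have h4 : ∀ l, JJ Sum.swap (sgn2 G k) b (I l) * typ cls τ c (Function.update I l d) +
        JJ Sum.swap (sgn2 G k) d (I l) * typ cls τ c (Function.update I l b) =
        if ∀ l, cl2 cls (I l) = τ l then (Om G k b (I l) * c (Function.update I l d) +
          Om G k d (I l) * c (Function.update I l b)) else 0 := by
      intro l
      rw [key b d hbd l, key d b hbd.symm l]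
      split_ifs
      · rfl
      · rw [add_zero]
    rw [Finset.sum_congr rfl (fun l _ => h4 l)]
    by_cases h5 : ∀ l, cl2 cls (I l) = τ l
    · simp only [if_pos h5]
      exact bracket_zero cls h b d hbd I
    · simp only [if_neg h5, Finset.sum_const_zero]
  · unfold typ at hI
    by_contra h1
    apply hI
    rw [if_neg]
    intro h2
    exact h1 (h2 l)

/-- A form killed by the symplectic Lie algebras of the blocks is a linear combination of products
over matchings. -/
theorem mem_MatG {κ : Type} [Fintype κ] [DecidableEq κ] {m : ℕ} (hκ : Fintype.card κ = 2 * m)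
    {c : (κ → G ⊕ G) → k}
    (h : ∀ (c0 : ι) (w : G ⊕ G → k), (∀ i, cls (Sum.elim id id i) ≠ c0 → w i = 0) →
      act (rk1 (Om G k) w) c = 0) :
    c ∈ MatG (cl2 cls) Sum.swap (sgn2 G k) κ m := by
  rw [← sum_typ cls c]
  refine Submodule.sum_mem _ fun τ _ => ?_
  refine fftG (cls := cl2 cls) (inv := Sum.swap) (jj := sgn2 G k) Sum.swap_swap
    (by rintro (x | x) <;> simp [sgn2]) (by rintro (x | x) <;> simp [sgn2])
    (fun x y h => by rw [cl2_swap, cl2_swap, h]) m κ hκ τ (typ_mem cls h τ)

end Pool.Agent.W437.HK
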