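import Mathlib
import Pool.Agent.H194R3.CM.Defs
import Pool.Agent.W437.HK.Period

/-!
# The real period map and the polarization form
-/

set_option linter.unusedSectionVars false

namespace Pool.Agent.W437.HK

open Matrix Pool.Agent.H204R3.CM

variable {G : Type*} [Fintype G] [DecidableEq G] (Z : Matrix G G ℂ)

/-- The real period map. -/
noncomputable def perR : (G ⊕ G → ℝ) →ₗ[ℝ] (G → ℂ) where
  toFun x := fun i => (x (Sum.inl i) : ℂ) + ∑ k, Z i k * (x (Sum.inr k) : ℂ)
  map_add' v w := by
    funext i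
    simp only [Pi.add_apply, Complex.ofReal_add, mul_add, Finset.sum_add_distrib]
    ring
  map_smul' a w := by
    funext i
    simp only [Pi.smul_apply, smul_eq_mul, Complex.ofReal_mul, Complex.real_smul, RingHom.id_apply,
      mul_add, Finset.mul_sum]
    congr 1
    exact Finset.sum_congr rfl fun k _ => by ring

theorem perR_apply (x : G ⊕ G → ℝ) (i : G) :
    perR Z x i = (x (Sum.inl i) : ℂ) + ∑ k, Z i k * (x (Sum.inr k) : ℂ) := rfl

theorem perR_re (x : G ⊕ G → ℝ) (i : G) :
    (perR Z x i).re = x (Sum.inl i) + (reM Z *ᵥ (fun k => x (Sum.inr k))) i := by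
  simp [perR, mulVec, dotProduct]

theorem perR_im (x : G ⊕ G → ℝ) (i : G) :
    (perR Z x i).im = (imM Z *ᵥ (fun k => x (Sum.inr k))) i := by
  simp [perR, mulVec, dotProduct]

theorem perR_JR (hY : IsUnit (imM Z).det) (x : G ⊕ G → ℝ) :
    perR Z (JR Z *ᵥ x) = Complex.I • perR Z x := by
  set a : G → ℝ := fun i => x (Sum.inl i) with ha
  set b : G → ℝ := fun i => x (Sum.inr i) with hb
  have hx2 : x = Sum.elim a b := by
    funext i
    rcases i with i | i <;> rfl
  set b' : G → ℝ := (imM Z)⁻¹ *ᵥ (a + reM Z *ᵥ b) with hb'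
  have hYb : imM Z *ᵥ b' = a + reM Z *ᵥ b := by
    rw [hb', mulVec_mulVec, mul_nonsing_inv _ hY, one_mulVec]
  have hJ : JR Z *ᵥ x = Sum.elim (-(reM Z *ᵥ b') - imM Z *ᵥ b) b' := by
    rw [hx2]
    unfold JR
    rw [fromBlocks_mulVec, Sum.elim_comp_inl, Sum.elim_comp_inr]
    congr 1
    · rw [hb', neg_mulVec, sub_mulVec, neg_mulVec, mulVec_add, mulVec_add, mulVec_mulVec,
        mulVec_mulVec, mulVec_mulVec, mul_assoc]
      abel
    · rw [hb', mulVec_add, mulVec_mulVec]
  funext i
  apply Complex.ext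
  · rw [perR_re, hJ]
    simp only [Sum.elim_inl, Sum.elim_inr, Pi.sub_apply, Pi.neg_apply, Pi.smul_apply, smul_eq_mul,
      Complex.mul_re, Complex.I_re, Complex.I_im, zero_mul, one_mul, zero_sub, perR_im]
    change -(reM Z *ᵥ b') i - (imM Z *ᵥ b) i + (reM Z *ᵥ b') i = -(imM Z *ᵥ b) i
    ring
  · rw [perR_im, hJ]
    simp only [Sum.elim_inr, Pi.smul_apply, smul_eq_mul, Complex.mul_im, Complex.I_re,
      Complex.I_im, zero_mul, one_mul, zero_add, perR_re]
    change (imM Z *ᵥ b') i = a i + (reM Z *ᵥ b) i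
    rw [hYb]
    rfl

theorem perR_rotate (hY : IsUnit (imM Z).det) (θ : ℝ) (x : G ⊕ G → ℝ) :
    perR Z (Real.cos θ • x + Real.sin θ • (JR Z *ᵥ x)) =
      (Complex.cos θ + Complex.sin θ * Complex.I) • perR Z x := by
  rw [map_add, map_smul, map_smul, perR_JR Z hY]
  funext i
  simp only [Pi.add_apply, Pi.smul_apply, smul_eq_mul, Complex.real_smul, Complex.ofReal_cos,
    Complex.ofReal_sin]
  ring

/-- The derivative of a rotation. -/
theorem act_of_rotate {B κ : Type*} [Fintype B] [DecidableEq B] [Fintype κ] [DecidableEq κ]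
    {J : Matrix B B ℝ} {c : (κ → B) → ℝ}
    (h : ∀ (θ : ℝ) (x : κ → B → ℝ),
      evalF c (fun k => Real.cos θ • x k + Real.sin θ • (J *ᵥ x k)) = evalF c x) :
    act J c = 0 := by
  apply eq_zero_of_evalF
  intro x
  rw [evalF_act]
  have h1 : HasDerivAt (fun θ : ℝ =>
      evalF c (fun k => Real.cos θ • x k + Real.sin θ • (J *ᵥ x k)))
      (∑ I, c I * ∑ k, (∏ l ∈ Finset.univ.erase k, (Real.cos 0 * x l (I l) +
        Real.sin 0 * (J *ᵥ x l) (I l))) • (-Real.sin 0 * x k (I k) +
          Real.cos 0 * (J *ᵥ x k) (I k))) 0 := by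
    unfold evalF
    refine HasDerivAt.fun_sum fun I _ => ?_
    refine HasDerivAt.const_mul _ ?_
    refine HasDerivAt.fun_finsetProd fun k _ => ?_
    exact ((Real.hasDerivAt_cos 0).mul_const _).add ((Real.hasDerivAt_sin 0).mul_const _)
  have h2 : HasDerivAt (fun θ : ℝ =>
      evalF c (fun k => Real.cos θ • x k + Real.sin θ • (J *ᵥ x k))) 0 0 := by
    have h3 : (fun θ : ℝ => evalF c (fun k => Real.cos θ • x k + Real.sin θ • (J *ᵥ x k))) =
        fun _ => evalF c x := by
      funext θ
      exact h θ x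
    rw [h3]
    exact hasDerivAt_const _ _
  have h3 := h1.unique h2
  rw [← h3]
  unfold evalF
  rw [Finset.sum_comm]
  refine Finset.sum_congr rfl fun I _ => ?_
  rw [Finset.mul_sum]
  refine Finset.sum_congr rfl fun k _ => ?_
  rw [← Finset.mul_prod_erase _ _ (Finset.mem_univ k), Function.update_self]
  have h2 : ∏ l ∈ Finset.univ.erase k, Function.update x k (J *ᵥ (x k)) l (I l) =
      ∏ l ∈ Finset.univ.erase k, x l (I l) := by
    refine Finset.prod_congr rfl fun l hl => ?_
    rw [Function.update_of_ne (Finset.ne_of_mem_erase hl)]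
  rw [h2]
  simp only [Real.cos_zero, Real.sin_zero, one_mul, zero_mul, add_zero, neg_zero, zero_add,
    smul_eq_mul]
  ring

/-- A real form which is killed by the complex structure. -/
theorem isH_of_real {k : Type*} [Field k] [Algebra k ℝ] {κ : Type*} [Fintype κ] [DecidableEq κ]
    {c : (κ → G ⊕ G) → k} (h : act (JR Z) (cst ℝ c) = 0) : IsH (DZ Z) c := by
  unfold IsH DZ
  rw [act_smul_left]
  have h4 : act ((JR Z).map (fun x : ℝ => (x : ℂ))) (cst ℂ c) = 0 := by
    funext I
    have h5 := congrFun h I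
    simp only [act, cst, Matrix.map_apply, Pi.zero_apply, algebraMap_complex] at h5 ⊢
    exact_mod_cast h5
  rw [h4, smul_zero]

/-- The alternation of a multilinear form which extends to an invariant real form is a Hodge
class. -/
theorem isHodge_alt {W T : Type*} [AddCommGroup W] [Module ℚ W] [AddCommGroup T] [Module ℂ T]
    {per : W →+ T} {κ : Type*} [Fintype κ] [DecidableEq κ]
    {b : MultilinearMap ℚ (fun _ : κ => W) ℚ}
    (Ψ : MultilinearMap ℝ (fun _ : κ => T) ℝ) (h1 : ∀ v : κ → W, Ψ (fun l => per (v l)) = b v)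
    (h2 : ∀ z : ℂ, ‖z‖ = 1 → ∀ u : κ → T, Ψ (fun l => z • u l) = Ψ u) :
    IsHodge per (MultilinearMap.alternatization b) := by
  refine ⟨(MultilinearMap.alternatization Ψ).toMultilinearMap, fun v => ?_, fun z hz u => ?_⟩
  · change MultilinearMap.alternatization Ψ _ = _
    rw [MultilinearMap.alternatization_apply, MultilinearMap.alternatization_apply, Rat.cast_sum]
    refine Finset.sum_congr rfl fun σ _ => ?_
    rw [MultilinearMap.domDomCongr_apply, MultilinearMap.domDomCongr_apply, h1, Units.smul_def,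
      Units.smul_def, zsmul_eq_mul, zsmul_eq_mul, Rat.cast_mul, Rat.cast_intCast]
  · change MultilinearMap.alternatization Ψ _ = MultilinearMap.alternatization Ψ _
    rw [MultilinearMap.alternatization_apply, MultilinearMap.alternatization_apply]
    refine Finset.sum_congr rfl fun σ _ => ?_
    rw [MultilinearMap.domDomCongr_apply, MultilinearMap.domDomCongr_apply]
    rw [h2 z hz]

/-- The imaginary part of the hermitian form given by the period matrix. -/
noncomputable def omC : (G → ℂ) →ₗ[ℝ] (G → ℂ) →ₗ[ℝ] ℝ :=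
  LinearMap.mk₂ ℝ (fun u v => (fun i => (u i).re) ⬝ᵥ ((imM Z)⁻¹ *ᵥ (fun i => (v i).im)) -
      (fun i => (u i).im) ⬝ᵥ ((imM Z)⁻¹ *ᵥ (fun i => (v i).re)))
    (fun u u' v => by
      have e1 : (fun i => ((u + u') i).re) = (fun i => (u i).re) + fun i => (u' i).re := by
        funext i; simp
      have e2 : (fun i => ((u + u') i).im) = (fun i => (u i).im) + fun i => (u' i).im := by
        funext i; simp
      rw [e1, e2, add_dotProduct, add_dotProduct]
      ring)
    (fun a u v => by
      have e1 : (fun i => ((a • u) i).re) = a • (fun i => (u i).re) := by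
        funext i; simp
      have e2 : (fun i => ((a • u) i).im) = a • (fun i => (u i).im) := by
        funext i; simp
      rw [e1, e2, smul_dotProduct, smul_dotProduct, smul_sub])
    (fun u v v' => by
      have e1 : (fun i => ((v + v') i).re) = (fun i => (v i).re) + fun i => (v' i).re := by
        funext i; simp
      have e2 : (fun i => ((v + v') i).im) = (fun i => (v i).im) + fun i => (v' i).im := by
        funext i; simp
      rw [e1, e2, mulVec_add, mulVec_add, dotProduct_add, dotProduct_add]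
      ring)
    (fun a u v => by
      have e1 : (fun i => ((a • v) i).re) = a • (fun i => (v i).re) := by
        funext i; simp
      have e2 : (fun i => ((a • v) i).im) = a • (fun i => (v i).im) := by
        funext i; simp
      rw [e1, e2, mulVec_smul, mulVec_smul, dotProduct_smul, dotProduct_smul, smul_sub])

theorem omC_apply (u v : G → ℂ) :
    omC Z u v = (fun i => (u i).re) ⬝ᵥ ((imM Z)⁻¹ *ᵥ (fun i => (v i).im)) -
      (fun i => (u i).im) ⬝ᵥ ((imM Z)⁻¹ *ᵥ (fun i => (v i).re)) := rfl

variable {Z}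

theorem omC_per (hZ : Zᵀ = Z) (hY : IsUnit (imM Z).det) (x y : G ⊕ G → ℝ) :
    omC Z (perR Z x) (perR Z y) =
      (fun i => x (Sum.inl i)) ⬝ᵥ (fun i => y (Sum.inr i)) -
        (fun i => x (Sum.inr i)) ⬝ᵥ (fun i => y (Sum.inl i)) := by
  have hre : ∀ w : G ⊕ G → ℝ, (fun i => (perR Z w i).re) =
      (fun i => w (Sum.inl i)) + reM Z *ᵥ (fun k => w (Sum.inr k)) := by
    intro w
    funext i
    rw [perR_re]
    rfl
  have him : ∀ w : G ⊕ G → ℝ, (fun i => (perR Z w i).im) =
      imM Z *ᵥ (fun k => w (Sum.inr k)) := by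
    intro w
    funext i
    rw [perR_im]
  rw [omC_apply, hre, hre, him, him]
  set a : G → ℝ := fun i => x (Sum.inl i) with ha
  set b : G → ℝ := fun i => x (Sum.inr i) with hb
  set a' : G → ℝ := fun i => y (Sum.inl i) with ha'
  set b' : G → ℝ := fun i => y (Sum.inr i) with hb'
  have hX : ∀ x y : G → ℝ, (reM Z *ᵥ x) ⬝ᵥ y = x ⬝ᵥ (reM Z *ᵥ y) := by
    intro x y
    rw [dotProduct_comm, dotProduct_mulVec, ← mulVec_transpose, reM_symm hZ, dotProduct_comm]
  have hYs : ∀ x y : G → ℝ, (imM Z *ᵥ x) ⬝ᵥ y = x ⬝ᵥ (imM Z *ᵥ y) := by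
    intro x y
    rw [dotProduct_comm, dotProduct_mulVec, ← mulVec_transpose, imM_symm hZ, dotProduct_comm]
  rw [mulVec_mulVec, nonsing_inv_mul _ hY, one_mulVec, hYs, mulVec_mulVec, mul_nonsing_inv _ hY,
    one_mulVec, add_dotProduct, dotProduct_add, hX]
  ring

theorem omC_rotate (z : ℂ) (hz : ‖z‖ = 1) (u v : G → ℂ) :
    omC Z (z • u) (z • v) = omC Z u v := by
  have hre : ∀ w : G → ℂ, (fun i => ((z • w) i).re) =
      z.re • (fun i => (w i).re) - z.im • (fun i => (w i).im) := by
    intro w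
    funext i
    simp
  have him : ∀ w : G → ℂ, (fun i => ((z • w) i).im) =
      z.re • (fun i => (w i).im) + z.im • (fun i => (w i).re) := by
    intro w
    funext i
    simp
  have hn : z.re ^ 2 + z.im ^ 2 = 1 := by
    have h := Complex.sq_norm z
    rw [hz, Complex.normSq_apply] at h
    nlinarith [h]
  rw [omC_apply, omC_apply, hre, hre, him, him]
  simp only [mulVec_add, mulVec_sub, mulVec_smul, dotProduct_add, dotProduct_sub, add_dotProduct,
    sub_dotProduct, smul_dotProduct, dotProduct_smul, smul_eq_mul]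
  linear_combination ((fun i => (u i).re) ⬝ᵥ ((imM Z)⁻¹ *ᵥ (fun i => (v i).im)) -
      (fun i => (u i).im) ⬝ᵥ ((imM Z)⁻¹ *ᵥ (fun i => (v i).re))) * hn

end Pool.Agent.W437.HK
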