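import Mathlib
import Pool.Agent.W437.HK.BlockFFT
import Pool.Agent.W437.HK.Rot

/-!
# The block diagonal period matrix
-/

set_option linter.unusedSectionVars false

namespace Pool.Agent.W437.HK

open Matrix

open Classical in
/-- The period matrix with given diagonal blocks. -/
noncomputable def bigM {X : Type*} {h : X → ℕ} {K : Type*} [Zero K]
    (Z : ∀ x, Matrix (Fin (h x)) (Fin (h x)) K) :
    Matrix (Σ x, Fin (h x)) (Σ x, Fin (h x)) K := blockDiagonal' Z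

/-- The indices of the entries on and above the diagonal of the blocks. -/
abbrev SB {X : Type*} (h : X → ℕ) : Type _ := Σ x, {p : Fin (h x) × Fin (h x) // p.1 ≤ p.2}

open Classical in
/-- The variable at a position of the block diagonal matrix. -/
noncomputable def idxB {X : Type*} {h : X → ℕ} (a b : Σ x, Fin (h x)) : Option (SB h) :=
  if hab : a.1 = b.1 then
    some ⟨b.1, ⟨(min (hab ▸ a.2) b.2, max (hab ▸ a.2) b.2), min_le_max⟩⟩ else none

variable {X : Type*} {h : X → ℕ} {K : Type*} [Zero K]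

theorem idxB_same (x : X) (a b : Fin (h x)) :
    idxB (h := h) ⟨x, a⟩ ⟨x, b⟩ = some ⟨x, ⟨(min a b, max a b), min_le_max⟩⟩ := by
  unfold idxB
  rw [dif_pos rfl]

theorem idxB_ne {x y : X} (hxy : x ≠ y) (a : Fin (h x)) (b : Fin (h y)) :
    idxB (h := h) ⟨x, a⟩ ⟨y, b⟩ = none := by
  unfold idxB
  rw [dif_neg hxy]

theorem bigM_same (Z : ∀ x, Matrix (Fin (h x)) (Fin (h x)) K) (x : X) (a b : Fin (h x)) :
    bigM Z ⟨x, a⟩ ⟨x, b⟩ = Z x a b := by
  classical
  unfold bigM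
  exact blockDiagonal'_apply_eq Z x a b

theorem bigM_ne (Z : ∀ x, Matrix (Fin (h x)) (Fin (h x)) K) {x y : X} (hxy : x ≠ y)
    (a : Fin (h x)) (b : Fin (h y)) : bigM Z ⟨x, a⟩ ⟨y, b⟩ = 0 := by
  classical
  unfold bigM
  exact blockDiagonal'_apply_ne Z a b hxy

theorem bigM_eq (Z : ∀ x, Matrix (Fin (h x)) (Fin (h x)) K) (hZ : ∀ x, (Z x)ᵀ = Z x) :
    bigM Z = matO idxB (fun s : SB h => Z s.1 s.2.1.1 s.2.1.2) := by
  ext ⟨x, a⟩ ⟨y, b⟩
  by_cases hxy : x = y
  · subst hxy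
    rw [bigM_same]
    unfold matO
    rw [idxB_same]
    change Z x a b = Z x (min a b) (max a b)
    rcases le_total a b with h | h
    · rw [min_eq_left h, max_eq_right h]
    · rw [min_eq_right h, max_eq_left h]
      exact (congrFun (congrFun (hZ x) a) b).symm
  · rw [bigM_ne Z hxy]
    unfold matO
    rw [idxB_ne hxy]
    rfl

theorem bigM_symm (Z : ∀ x, Matrix (Fin (h x)) (Fin (h x)) K) (hZ : ∀ x, (Z x)ᵀ = Z x) :
    (bigM Z)ᵀ = bigM Z := by
  ext ⟨x, a⟩ ⟨y, b⟩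
  rw [transpose_apply]
  by_cases hxy : x = y
  · subst hxy
    rw [bigM_same, bigM_same]
    exact congrFun (congrFun (hZ x) a) b
  · rw [bigM_ne Z hxy, bigM_ne Z (Ne.symm hxy)]

theorem idxB_hidx {k : Type*} [Zero k] (M : Matrix (Σ x, Fin (h x)) (Σ x, Fin (h x)) k)
    (hM : Mᵀ = M) (hMb : BlockD Sigma.fst M) : ∃ w : SB h → k, M = matO idxB w := by
  refine ⟨fun s => M ⟨s.1, s.2.1.1⟩ ⟨s.1, s.2.1.2⟩, ?_⟩
  ext ⟨x, a⟩ ⟨y, b⟩
  by_cases hxy : x = y
  · subst hxy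
    unfold matO
    rw [idxB_same]
    change M ⟨x, a⟩ ⟨x, b⟩ = M ⟨x, min a b⟩ ⟨x, max a b⟩
    rcases le_total a b with h | h
    · rw [min_eq_left h, max_eq_right h]
    · rw [min_eq_right h, max_eq_left h]
      exact (congrFun (congrFun hM ⟨x, a⟩) ⟨x, b⟩).symm
  · rw [hMb ⟨x, a⟩ ⟨y, b⟩ hxy]
    unfold matO
    rw [idxB_ne hxy]
    rfl

variable [Fintype X]

theorem bigM_mulVec {K : Type*} [NonUnitalNonAssocSemiring K]
    (Z : ∀ x, Matrix (Fin (h x)) (Fin (h x)) K) (y : (Σ x, Fin (h x)) → K) (x : X)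
    (a : Fin (h x)) :
    (bigM Z *ᵥ y) ⟨x, a⟩ = (Z x *ᵥ (fun b => y ⟨x, b⟩)) a := by
  rw [mulVec, dotProduct, Fintype.sum_sigma, Finset.sum_eq_single x]
  · rw [mulVec, dotProduct]
    exact Finset.sum_congr rfl fun b _ => by rw [bigM_same]
  · intro x' _ hx'
    exact Finset.sum_eq_zero fun b _ => by rw [bigM_ne Z (Ne.symm hx'), zero_mul]
  · intro h
    exact absurd (Finset.mem_univ _) h

theorem bigM_map {K K' : Type*} [Zero K] [Zero K'] (f : K → K') (hf : f 0 = 0)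
    (Z : ∀ x, Matrix (Fin (h x)) (Fin (h x)) K) :
    (bigM Z).map f = bigM (fun x => (Z x).map f) := by
  ext ⟨x, a⟩ ⟨y, b⟩
  rw [Matrix.map_apply]
  by_cases hxy : x = y
  · subst hxy
    rw [bigM_same, bigM_same, Matrix.map_apply]
  · rw [bigM_ne Z hxy, bigM_ne _ hxy, hf]

theorem bigM_posDef (Y : ∀ x, Matrix (Fin (h x)) (Fin (h x)) ℝ) (hY : ∀ x, (Y x).PosDef) :
    (bigM Y).PosDef := by
  refine PosDef.of_dotProduct_mulVec_pos ?_ fun y hy => ?_
  · rw [IsHermitian, conjTranspose_eq_transpose_of_trivial]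
    exact bigM_symm Y fun x => by
      have := (hY x).isHermitian
      rwa [IsHermitian, conjTranspose_eq_transpose_of_trivial] at this
  · rw [dotProduct, Fintype.sum_sigma]
    have h1 : ∀ x, ∑ a, star y ⟨x, a⟩ * (bigM Y *ᵥ y) ⟨x, a⟩ =
        star (fun a => y ⟨x, a⟩) ⬝ᵥ (Y x *ᵥ (fun a => y ⟨x, a⟩)) := by
      intro x
      rw [dotProduct]
      exact Finset.sum_congr rfl fun a _ => by rw [bigM_mulVec]; rfl
    rw [Finset.sum_congr rfl (fun x _ => h1 x)]
    obtain ⟨⟨x0, a0⟩, hx0⟩ : ∃ g, y g ≠ 0 := by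
      by_contra hcon
      push Not at hcon
      exact hy (funext hcon)
    refine Finset.sum_pos' (fun x _ => ?_) ⟨x0, Finset.mem_univ _, ?_⟩
    · by_cases h0 : (fun a => y ⟨x, a⟩) = 0
      · rw [h0]
        simp
      · exact ((hY x).dotProduct_mulVec_pos h0).le
    · exact (hY x0).dotProduct_mulVec_pos fun h => hx0 (congrFun h a0)

end Pool.Agent.W437.HK
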