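import Mathlib

/-!
# Totally real number fields
-/

set_option linter.unusedSectionVars false

namespace Pool.Agent.W437.HK

open NumberField

variable (F : Type*) [Field F] [NumberField F]

theorem exists_mu (lam : F →ₗ[ℚ] ℚ) : ∃ μ : F, ∀ y, lam y = Algebra.trace ℚ F (μ * y) := by
  have h1 := traceForm_nondegenerate ℚ F
  refine ⟨((Algebra.traceForm ℚ F).toDual h1).symm lam, fun y => ?_⟩
  have h2 := LinearMap.BilinForm.apply_toDual_symm_apply (B := Algebra.traceForm ℚ F) (hB := h1)
    lam y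
  rw [← h2]
  rfl

/-- There are finitely many elements which give coordinates through the trace. -/
theorem exists_dual : ∃ (s : ℕ) (b b' : Fin s → F), ∀ y, y = ∑ l, Algebra.trace ℚ F (b l * y) • b' l := by
  let e := Module.finBasis ℚ F
  have h1 : ∀ l, ∃ μ : F, ∀ y, e.coord l y = Algebra.trace ℚ F (μ * y) := fun l => exists_mu F _
  choose b hb using h1
  refine ⟨_, b, e, fun y => ?_⟩
  conv_lhs => rw [← e.sum_repr y]
  refine Finset.sum_congr rfl fun l _ => ?_
  rw [← hb l y]
  rfl

/-- The trace on a totally real number field is the sum of the real embeddings. -/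
theorem trace_real [IsTotallyReal F] (y : F) :
    ((Algebra.trace ℚ F y : ℚ) : ℝ) = ∑ σ : F →+* ℝ, σ y := by
  have h1 : algebraMap ℚ ℂ (Algebra.trace ℚ F y) = ∑ σ : F →ₐ[ℚ] ℂ, σ y :=
    trace_eq_sum_embeddings ℂ
  have h2 : ∑ σ : F →ₐ[ℚ] ℂ, σ y = ∑ σ : F →+* ℂ, σ y :=
    (Fintype.sum_equiv (RingHom.equivRatAlgHom F ℂ) _ _ fun σ => rfl).symm
  have hreal : ∀ φ : F →+* ℂ, ComplexEmbedding.IsReal φ :=
    IsTotallyReal.complexEmbedding_isReal
  let E : (F →+* ℝ) ≃ (F →+* ℂ) :=
    { toFun := fun σ => Complex.ofRealHom.comp σ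
      invFun := fun φ => (hreal φ).embedding
      left_inv := by
        intro σ
        ext x
        have h3 := (hreal (Complex.ofRealHom.comp σ)).coe_embedding_apply x
        exact Complex.ofReal_injective h3
      right_inv := by
        intro φ
        ext x
        exact (hreal φ).coe_embedding_apply x }
  have h3 : ∑ σ : F →+* ℂ, σ y = ∑ σ : F →+* ℝ, ((σ y : ℝ) : ℂ) :=
    (Fintype.sum_equiv E _ _ fun σ => rfl).symm
  have h4 : (((Algebra.trace ℚ F y : ℚ) : ℝ) : ℂ) = ((∑ σ : F →+* ℝ, σ y : ℝ) : ℂ) := by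
    rw [Complex.ofReal_sum, ← h3, ← h2, ← h1]
    simp
  exact Complex.ofReal_injective h4

end Pool.Agent.W437.HK
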