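import Mathlib
import Pool.Agent.W437.HK.Big
import Pool.Agent.W437.HK.TR

/-!
# Products of abelian varieties with multiplication by totally real fields: coordinates
-/

set_option linter.unusedSectionVars false

namespace Pool.Agent.W437.HK

open Matrix NumberField Pool.Agent.H204R3.CM

/-- For each `i` let `F i` be a number field and for each real embedding `σ` of `F i` let `Z i σ` be
a period matrix of size `h i`. If `F i` is totally real, these matrices define an abelian variety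
`A i` with rational homology `F i ^ (2 h i)` and tangent space `∏ σ, ℂ ^ (h i)`; the inclusion is
`(a, b) ↦ (σ a + Z i σ (σ b))_σ`. This is the inclusion of the rational homology of the product,
over `j : J`, of the abelian varieties `A (t j)` into its tangent space. -/
noncomputable def perRM {ι : Type*} {F : ι → Type*} [∀ i, Field (F i)] {h : ι → ℕ}
    (Z : ∀ i, (F i →+* ℝ) → Matrix (Fin (h i)) (Fin (h i)) ℂ) {J : Type*} (t : J → ι) :
    (∀ j, Fin (h (t j)) ⊕ Fin (h (t j)) → F (t j)) →+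
      (∀ j, (F (t j) →+* ℝ) → Fin (h (t j)) → ℂ) where
  toFun w := fun j σ a =>
    (σ (w j (Sum.inl a)) : ℂ) + ∑ b, Z (t j) σ a b * (σ (w j (Sum.inr b)) : ℂ)
  map_zero' := by
    funext j σ a
    simp
  map_add' v w := by
    funext j σ a
    simp only [Pi.add_apply, map_add, Complex.ofReal_add, mul_add, Finset.sum_add_distrib]
    ring

variable {ι : Type*} {F : ι → Type*} [∀ i, Field (F i)] {h : ι → ℕ}

theorem perRM_apply (Z : ∀ i, (F i →+* ℝ) → Matrix (Fin (h i)) (Fin (h i)) ℂ) {J : Type*}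
    (t : J → ι) (w : ∀ j, Fin (h (t j)) ⊕ Fin (h (t j)) → F (t j)) (j : J)
    (σ : F (t j) →+* ℝ) (a : Fin (h (t j))) : perRM Z t w j σ a =
      (σ (w j (Sum.inl a)) : ℂ) + ∑ b, Z (t j) σ a b * (σ (w j (Sum.inr b)) : ℂ) := rfl

/-- The real embeddings of the members of the family. -/
abbrev XX (F : ι → Type*) [∀ i, Field (F i)] : Type _ := Σ i, (F i →+* ℝ)

/-- The basis vectors of the tangent spaces. -/
abbrev GG (F : ι → Type*) [∀ i, Field (F i)] (h : ι → ℕ) : Type _ := Σ x : XX F, Fin (h x.1)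

/-- The basis vector given by an index, an embedding and a vector of the symplectic basis. -/
def gg (i : ι) (σ : F i →+* ℝ) (β : Fin (h i) ⊕ Fin (h i)) : GG F h ⊕ GG F h :=
  Sum.map (fun a => ⟨⟨i, σ⟩, a⟩) (fun a => ⟨⟨i, σ⟩, a⟩) β

/-- The coordinates of a vector. -/
def crd {k : Type*} [Field k] (sg : ∀ i, (F i →+* ℝ) → (F i →+* k))
    (v : ∀ i, Fin (h i) ⊕ Fin (h i) → F i) : GG F h ⊕ GG F h → k :=
  Sum.elim (fun g => sg g.1.1 g.1.2 (v g.1.1 (Sum.inl g.2)))
    (fun g => sg g.1.1 g.1.2 (v g.1.1 (Sum.inr g.2)))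

theorem crd_gg {k : Type*} [Field k] (sg : ∀ i, (F i →+* ℝ) → (F i →+* k))
    (v : ∀ i, Fin (h i) ⊕ Fin (h i) → F i) (i : ι) (σ : F i →+* ℝ)
    (β : Fin (h i) ⊕ Fin (h i)) : crd sg v (gg i σ β) = sg i σ (v i β) := by
  rcases β with β | β <;> rfl

theorem exists_gg (y : GG F h ⊕ GG F h) : ∃ i σ β, y = gg i σ β := by
  rcases y with ⟨⟨i, σ⟩, a⟩ | ⟨⟨i, σ⟩, a⟩
  · exact ⟨i, σ, Sum.inl a, rfl⟩
  · exact ⟨i, σ, Sum.inr a, rfl⟩

variable [Fintype ι] [∀ i, NumberField (F i)]

theorem sum_gg {M : Type*} [AddCommMonoid M] (f : GG F h ⊕ GG F h → M) :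
    ∑ y, f y = ∑ i, ∑ σ : F i →+* ℝ, ∑ β, f (gg i σ β) := by
  rw [Fintype.sum_sum_type, Fintype.sum_sigma, Fintype.sum_sigma, Fintype.sum_sigma,
    Fintype.sum_sigma, ← Finset.sum_add_distrib]
  refine Finset.sum_congr rfl fun i _ => ?_
  rw [← Finset.sum_add_distrib]
  refine Finset.sum_congr rfl fun σ _ => ?_
  rw [Fintype.sum_sum_type]
  rfl

/-- The coordinates span. -/
theorem span_crd : Submodule.span ℝ (Set.range (crd (h := h)
    (fun (i : ι) (σ : F i →+* ℝ) => σ))) = ⊤ := by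
  classical
  by_contra hne
  obtain ⟨φ, hφ, hφ2⟩ := Submodule.exists_le_ker_of_lt_top _ (lt_top_iff_ne_top.2 hne)
  apply hφ
  have h1 : ∀ v : (∀ i, Fin (h i) ⊕ Fin (h i) → F i),
      φ (crd (fun (i : ι) (σ : F i →+* ℝ) => σ) v) = 0 := fun v =>
    hφ2 (Submodule.subset_span ⟨v, rfl⟩)
  have h2 : ∀ (x : GG F h ⊕ GG F h → ℝ), φ x = ∑ y, x y * φ (Pi.single y 1) := by
    intro x
    conv_lhs => rw [← Finset.univ_sum_single x]
    rw [map_sum]
    refine Finset.sum_congr rfl fun y _ => ?_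
    have h3 : (Pi.single y (x y) : GG F h ⊕ GG F h → ℝ) = x y • Pi.single y 1 := by
      rw [← Pi.single_smul, smul_eq_mul, mul_one]
    rw [h3, map_smul, smul_eq_mul]
  have h3 : ∀ (i : ι) (β : Fin (h i) ⊕ Fin (h i)) (σ : F i →+* ℝ),
      φ (Pi.single (gg i σ β) 1) = 0 := by
    intro i β
    have hli : LinearIndependent ℝ (fun σ : F i →+* ℝ => (σ : F i → ℝ)) := by
      have h4 := linearIndependent_monoidHom (F i) ℝ
      exact h4.comp (fun σ : F i →+* ℝ => (σ : F i →* ℝ)) fun σ τ hst => by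
        ext x
        exact DFunLike.congr_fun hst x
    rw [Fintype.linearIndependent_iff] at hli
    refine hli (fun σ => φ (Pi.single (gg i σ β) 1)) ?_
    funext c
    rw [Finset.sum_apply]
    have h5 := h1 (Pi.single i (Pi.single β c))
    rw [h2, sum_gg, Finset.sum_eq_single i] at h5
    · rw [Pi.zero_apply, ← h5]
      refine Finset.sum_congr rfl fun σ _ => ?_
      rw [Finset.sum_eq_single β]
      · rw [crd_gg, Pi.single_eq_same, Pi.single_eq_same]
        rw [Pi.smul_apply, smul_eq_mul, mul_comm]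
      · intro β' _ hβ'
        rw [crd_gg, Pi.single_eq_same, Pi.single_eq_of_ne hβ', map_zero, zero_mul]
      · intro h
        exact absurd (Finset.mem_univ _) h
    · intro i' _ hi'
      refine Finset.sum_eq_zero fun σ _ => Finset.sum_eq_zero fun β' _ => ?_
      rw [crd_gg, Pi.single_eq_of_ne hi', Pi.zero_apply, map_zero, zero_mul]
    · intro h
      exact absurd (Finset.mem_univ _) h
  apply LinearMap.ext
  intro x
  rw [h2, LinearMap.zero_apply]
  refine Finset.sum_eq_zero fun y _ => ?_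
  obtain ⟨i, σ, β, rfl⟩ := exists_gg y
  rw [h3, mul_zero]

variable [∀ i, IsTotallyReal (F i)] {k : Type*} [Field k] [Algebra k ℝ] [CharZero k]
  {sg : ∀ i, (F i →+* ℝ) → (F i →+* k)}

theorem trace_k (hsg : ∀ i σ a, algebraMap k ℝ (sg i σ a) = σ a) (i : ι) (y : F i) :
    ((Algebra.trace ℚ (F i) y : ℚ) : k) = ∑ σ : F i →+* ℝ, sg i σ y := by
  apply (algebraMap k ℝ).injective
  rw [map_ratCast, trace_real, map_sum]
  exact Finset.sum_congr rfl fun σ _ => (hsg i σ y).symm

/-- Rational linear functionals are linear combinations of coordinates. -/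
theorem exists_coord (hsg : ∀ i σ a, algebraMap k ℝ (sg i σ a) = σ a) {n : ℕ}
    (lam : (∀ p : Fin n × ι, Fin (h p.2) ⊕ Fin (h p.2) → F p.2) →ₗ[ℚ] ℚ) :
    ∃ M : Fin n → GG F h ⊕ GG F h → k, ∀ w, ((lam w : ℚ) : k) =
      ∑ j, ∑ y, M j y * crd sg (fun i => w (j, i)) y := by
  classical
  have h1 : ∀ (p : Fin n × ι) (β : Fin (h p.2) ⊕ Fin (h p.2)), ∃ μ : F p.2, ∀ y,
      lam (Pi.single p (Pi.single β y)) = Algebra.trace ℚ (F p.2) (μ * y) := by
    intro p β
    exact exists_mu (F p.2) ((lam.comp (LinearMap.single ℚ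
      (fun p : Fin n × ι => Fin (h p.2) ⊕ Fin (h p.2) → F p.2) p)).comp
      (LinearMap.single ℚ (fun _ : Fin (h p.2) ⊕ Fin (h p.2) => F p.2) β))
  choose μ hμ using h1
  refine ⟨fun j => crd sg (fun i β => μ (j, i) β), fun w => ?_⟩
  have h2 : w = ∑ p, ∑ β, Pi.single p (Pi.single β (w p β)) := by
    funext p' β'
    rw [Finset.sum_apply, Finset.sum_apply, Finset.sum_eq_single p']
    · rw [Finset.sum_apply, Finset.sum_apply, Finset.sum_eq_single β']
      · rw [Pi.single_eq_same, Pi.single_eq_same]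
      · intro β _ hβ
        rw [Pi.single_eq_same, Pi.single_eq_of_ne (Ne.symm hβ)]
      · intro h
        exact absurd (Finset.mem_univ _) h
    · intro p _ hp
      rw [Finset.sum_apply, Finset.sum_apply]
      refine Finset.sum_eq_zero fun β _ => ?_
      rw [Pi.single_eq_of_ne (Ne.symm hp)]
      rfl
    · intro h
      exact absurd (Finset.mem_univ _) h
  have h3 : ((lam w : ℚ) : k) = ∑ p : Fin n × ι, ∑ β, ∑ σ : F p.2 →+* ℝ,
      sg p.2 σ (μ p β * w p β) := by
    conv_lhs => rw [h2]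
    rw [map_sum, Rat.cast_sum]
    refine Finset.sum_congr rfl fun p _ => ?_
    rw [map_sum, Rat.cast_sum]
    refine Finset.sum_congr rfl fun β _ => ?_
    rw [hμ, trace_k hsg]
  rw [h3, Fintype.sum_prod_type]
  refine Finset.sum_congr rfl fun j _ => ?_
  rw [sum_gg]
  refine Finset.sum_congr rfl fun i _ => ?_
  rw [Finset.sum_comm]
  refine Finset.sum_congr rfl fun σ _ => ?_
  refine Finset.sum_congr rfl fun β _ => ?_
  rw [crd_gg]
  change (sg i σ) (μ (j, i) β * w (j, i) β) =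
    crd sg (fun i β => μ (j, i) β) (gg i σ β) * (sg i σ) (w (j, i) β)
  rw [crd_gg, map_mul]

end Pool.Agent.W437.HK
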