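import Mathlib
import Pool.Agent.W437.HK.RM

/-!
# The coefficients of Hodge classes on products of abelian varieties with real multiplication
-/

set_option linter.unusedSectionVars false

namespace Pool.Agent.W437.HK

open Matrix NumberField Pool.Agent.H204R3.CM

section

variable {B κ K : Type*} [Fintype B] [DecidableEq B] [Fintype κ] [DecidableEq κ] [Field K]

theorem evalF_sub (c d : (κ → B) → K) (x : κ → B → K) :
    evalF (c - d) x = evalF c x - evalF d x := by
  simp only [evalF, Pi.sub_apply, sub_mul, Finset.sum_sub_distrib]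

theorem evalF_cst {k : Type*} [Field k] [Algebra k K] (c : (κ → B) → k) (x : κ → B → k) :
    evalF (cst K c) (fun l i => algebraMap k K (x l i)) = algebraMap k K (evalF c x) := by
  simp [evalF, cst]

/-- A multilinear form is given by its coefficients if it is so on a spanning set. -/
theorem ml_eq (ψ : MultilinearMap K (fun _ : κ => B → K) K) (c : (κ → B) → K) (S : Set (B → K))
    (hS : Submodule.span K S = ⊤) (h : ∀ x : κ → B → K, (∀ l, x l ∈ S) → ψ x = evalF c x)
    (x : κ → B → K) : ψ x = evalF c x := by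
  set c' : (κ → B) → K := fun I => ψ (fun l => Pi.single (I l) 1) with hc'
  have h1 : ψ = evalM c' := by
    refine Module.Basis.ext_multilinear (fun _ => Pi.basisFun K B) fun I => ?_
    simp only [Pi.basisFun_apply]
    rw [evalM_apply, evalF_single]
  have h2 : ∀ x, ψ x = evalF c' x := fun x => by
    conv_lhs => rw [h1]
    rfl
  have h3 := evalF_span (c' - c) S hS (fun x hx => by
    rw [evalF_sub, ← h2, h x hx, sub_self]) x
  rw [evalF_sub, sub_eq_zero] at h3
  rw [h2, h3]

end

variable {ι : Type*} {F : ι → Type*} [∀ i, Field (F i)] {h : ι → ℕ}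

variable [Fintype ι] [∀ i, NumberField (F i)]

section

variable [∀ i, IsTotallyReal (F i)] {k : Type*} [Field k] [Algebra k ℝ] [CharZero k]
  {sg : ∀ i, (F i →+* ℝ) → (F i →+* k)} [DecidableEq (XX F)]

/-- The coefficients of a rational multilinear form in the coordinates given by the embeddings. -/
theorem exists_coef (hsg : ∀ i σ a, algebraMap k ℝ (sg i σ a) = σ a) {n : ℕ} {κ : Type*}
    [Fintype κ] [DecidableEq κ]
    (f : MultilinearMap ℚ (fun _ : κ => ∀ p : Fin n × ι, Fin (h p.2) ⊕ Fin (h p.2) → F p.2) ℚ) :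
    ∃ c : (κ → Fin n) → (κ → GG F h ⊕ GG F h) → k, ∀ v, ((f v : ℚ) : k) =
      ∑ τ : κ → Fin n, ∑ I : κ → GG F h ⊕ GG F h,
        c τ I * ∏ l, crd sg (fun i => v l (τ l, i)) (I l) := by
  classical
  let b := Module.finBasis ℚ (∀ p : Fin n × ι, Fin (h p.2) ⊕ Fin (h p.2) → F p.2)
  choose M hM using fun e => exists_coord (k := k) (sg := sg) hsg (b.coord e)
  refine ⟨fun τ I => ∑ r : κ → Fin _, ((f (fun l => b (r l)) : ℚ) : k) *
    ∏ l, M (r l) (τ l) (I l), fun v => ?_⟩
  have h1 : f v = ∑ r : κ → Fin _, (∏ l, b.coord (r l) (v l)) * f (fun l => b (r l)) := by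
    have h2 : v = fun l => ∑ e, b.coord e (v l) • b e := by
      funext l
      exact (b.sum_repr (v l)).symm
    conv_lhs => rw [h2]
    rw [MultilinearMap.map_sum]
    refine Finset.sum_congr rfl fun r _ => ?_
    rw [MultilinearMap.map_smul_univ, smul_eq_mul]
  have h3 : ∀ r : κ → Fin _, ∏ l, ((b.coord (r l) (v l) : ℚ) : k) =
      ∑ τ : κ → Fin n, ∑ I : κ → GG F h ⊕ GG F h,
        ∏ l, (M (r l) (τ l) (I l) * crd sg (fun i => v l (τ l, i)) (I l)) := by
    intro r
    rw [Finset.prod_congr rfl (fun l _ => hM (r l) (v l)), Finset.prod_univ_sum,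
      Fintype.piFinset_univ]
    refine Finset.sum_congr rfl fun τ _ => ?_
    rw [Finset.prod_univ_sum, Fintype.piFinset_univ]
  rw [h1, Rat.cast_sum]
  have h4 : ∀ r : κ → Fin _, (((∏ l, b.coord (r l) (v l)) * f (fun l => b (r l)) : ℚ) : k) =
      ∑ τ : κ → Fin n, ∑ I : κ → GG F h ⊕ GG F h, (((f (fun l => b (r l)) : ℚ) : k) *
        ∏ l, M (r l) (τ l) (I l)) * ∏ l, crd sg (fun i => v l (τ l, i)) (I l) := by
    intro r
    rw [Rat.cast_mul, Rat.cast_prod, h3, Finset.sum_mul]
    refine Finset.sum_congr rfl fun τ _ => ?_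
    rw [Finset.sum_mul]
    refine Finset.sum_congr rfl fun I _ => ?_
    rw [Finset.prod_mul_distrib]
    ring
  rw [Finset.sum_congr rfl (fun r _ => h4 r), Finset.sum_comm]
  refine Finset.sum_congr rfl fun τ _ => ?_
  rw [Finset.sum_comm]
  refine Finset.sum_congr rfl fun I _ => ?_
  rw [Finset.sum_mul]

end

section

variable {n : ℕ}

/-- The inclusion of the homology of a factor. -/
def embW (j : Fin n) (v : ∀ i, Fin (h i) ⊕ Fin (h i) → F i) :
    ∀ p : Fin n × ι, Fin (h p.2) ⊕ Fin (h p.2) → F p.2 :=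
  fun p => if p.1 = j then v p.2 else 0

theorem crd_embW {k : Type*} [Field k] (sg : ∀ i, (F i →+* ℝ) → (F i →+* k)) (j j' : Fin n)
    (v : ∀ i, Fin (h i) ⊕ Fin (h i) → F i) :
    crd sg (fun i => embW j v (j', i)) = if j' = j then crd sg v else 0 := by
  by_cases hj : j' = j
  · rw [if_pos hj]
    have h1 : (fun i => embW j v (j', i)) = v := by
      funext i
      exact if_pos hj
    rw [h1]
  · rw [if_neg hj]
    have h1 : (fun i => embW j v (j', i)) = fun i => 0 := by
      funext i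
      exact if_neg hj
    rw [h1]
    funext y
    rcases y with y | y
    · exact map_zero (sg y.1.1 y.1.2)
    · exact map_zero (sg y.1.1 y.1.2)

/-- The inclusion of the tangent space of a factor. -/
noncomputable def embT (j : Fin n) : (GG F h → ℂ) →ₗ[ℂ]
    (∀ p : Fin n × ι, (F p.2 →+* ℝ) → Fin (h p.2) → ℂ) where
  toFun y := fun p σ a => if p.1 = j then y ⟨⟨p.2, σ⟩, a⟩ else 0
  map_add' y y' := by
    funext p σ a
    by_cases hp : p.1 = j
    · simp [hp]
    · simp [hp]
  map_smul' c y := by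
    funext p σ a
    by_cases hp : p.1 = j
    · simp [hp]
    · simp [hp]

theorem per_embW (Z : ∀ i, (F i →+* ℝ) → Matrix (Fin (h i)) (Fin (h i)) ℂ) (j : Fin n)
    (v : ∀ i, Fin (h i) ⊕ Fin (h i) → F i) :
    perRM Z (Prod.snd : Fin n × ι → ι) (embW j v) =
      embT j (perR (bigM (fun x : XX F => Z x.1 x.2)) (crd (fun (i : ι) (σ : F i →+* ℝ) => σ) v)) := by
  classical
  funext p σ a
  rw [perRM_apply]
  change _ = if p.1 = j then _ else (0 : ℂ)
  by_cases hp : p.1 = j
  · rw [if_pos hp]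
    have h1 : embW j v p = v p.2 := if_pos hp
    rw [h1, perR_apply]
    congr 1
    have h2 := bigM_mulVec (fun x : XX F => Z x.1 x.2) (fun g => ((crd (fun (i : ι)
      (σ : F i →+* ℝ) => σ) v (Sum.inr g) : ℝ) : ℂ)) ⟨p.2, σ⟩ a
    rw [mulVec, dotProduct, mulVec, dotProduct] at h2
    exact h2.symm
  · rw [if_neg hp]
    have h1 : embW j v p = 0 := if_neg hp
    rw [h1]
    simp

end

variable [∀ i, IsTotallyReal (F i)] {k : Type*} [Field k] [Algebra k ℝ] [CharZero k]
  {sg : ∀ i, (F i →+* ℝ) → (F i →+* k)} [DecidableEq (XX F)]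

/-- The coefficients of Hodge classes are killed by the Hodge operator. -/
theorem isH_coef (hsg : ∀ i σ a, algebraMap k ℝ (sg i σ a) = σ a) {n : ℕ} {κ : Type*}
    [Fintype κ] [DecidableEq κ]
    {Z : ∀ i, (F i →+* ℝ) → Matrix (Fin (h i)) (Fin (h i)) ℂ}
    (hY : IsUnit (imM (bigM (fun x : XX F => Z x.1 x.2))).det)
    {f : (∀ p : Fin n × ι, Fin (h p.2) ⊕ Fin (h p.2) → F p.2) [⋀^κ]→ₗ[ℚ] ℚ}
    (hf : IsHodge (perRM Z (Prod.snd : Fin n × ι → ι)) f)
    {c : (κ → Fin n) → (κ → GG F h ⊕ GG F h) → k}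
    (hc : ∀ v, ((f v : ℚ) : k) = ∑ τ : κ → Fin n, ∑ I : κ → GG F h ⊕ GG F h,
        c τ I * ∏ l, crd sg (fun i => v l (τ l, i)) (I l)) (τ : κ → Fin n) :
    IsH (DZ (bigM (fun x : XX F => Z x.1 x.2))) (c τ) := by
  obtain ⟨ψ, hψ1, hψ2⟩ := hf
  set Zb := bigM (fun x : XX F => Z x.1 x.2) with hZb
  -- values on the factors
  have h1 : ∀ v : κ → (∀ i, Fin (h i) ⊕ Fin (h i) → F i),
      ((f (fun l => embW (τ l) (v l)) : ℚ) : k) = evalF (c τ) (fun l => crd sg (v l)) := by
    intro v
    rw [hc, Finset.sum_eq_single τ]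
    · unfold evalF
      refine Finset.sum_congr rfl fun I _ => ?_
      congr 1
      refine Finset.prod_congr rfl fun l _ => ?_
      rw [crd_embW, if_pos rfl]
    · intro τ' _ hτ'
      obtain ⟨l, hl⟩ : ∃ l, τ' l ≠ τ l := by
        by_contra hcon
        push Not at hcon
        exact hτ' (funext hcon)
      refine Finset.sum_eq_zero fun I _ => ?_
      rw [Finset.prod_eq_zero (Finset.mem_univ l), mul_zero]
      rw [crd_embW, if_neg hl]
      rfl
    · intro h
      exact absurd (Finset.mem_univ _) h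
  let ψ' : MultilinearMap ℝ (fun _ : κ => GG F h ⊕ GG F h → ℝ) ℝ :=
    ψ.compLinearMap (fun l => ((embT (τ l)).restrictScalars ℝ).comp (perR Zb))
  have h2 : ∀ x, ψ' x = evalF (cst ℝ (c τ)) x := by
    refine ml_eq ψ' _ _ (span_crd (F := F) (h := h)) fun x hx => ?_
    choose v hv using hx
    have h3 : ψ' x = ψ (fun l => perRM Z (Prod.snd : Fin n × ι → ι) (embW (τ l) (v l))) := by
      change ψ _ = ψ _
      congr 1
      funext l
      rw [per_embW, ← hv l]
      rfl
    rw [h3, hψ1]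
    have h4 : x = fun l i => algebraMap k ℝ (crd sg (v l) i) := by
      funext l y
      rw [← hv l]
      rcases y with y | y
      · exact (hsg y.1.1 y.1.2 _).symm
      · exact (hsg y.1.1 y.1.2 _).symm
    rw [h4, evalF_cst, ← h1, map_ratCast]
  apply isH_of_real
  apply act_of_rotate
  intro θ x
  rw [← h2, ← h2]
  change ψ _ = ψ _
  refine Eq.trans ?_ (hψ2 (Complex.cos θ + Complex.sin θ * Complex.I) (by
    rw [← Complex.exp_mul_I, Complex.norm_exp_ofReal_mul_I]) _)
  congr 1
  funext l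
  change embT (τ l) (perR Zb _) = _ • embT (τ l) (perR Zb _)
  rw [perR_rotate Zb hY, map_smul]

end Pool.Agent.W437.HK
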