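import Mathlib
import Pool.Agent.H204R3.SP.AltSpan
import Pool.Agent.H204R3.SP.Lie
import Pool.Agent.W437.HK.Coef

/-!
# Hodge classes on products of abelian varieties with real multiplication
-/

set_option linter.unusedSectionVars false

namespace Pool.Agent.W437.HK

open Matrix NumberField Pool.Agent.H204R3.CM Pool.Agent.H204R3.SP Pool.Agent.H204R3.GP
  Pool.Agent.H194R3.CM

/-- The standard symplectic form over a field. -/
def om2 {R : Type*} [CommRing R] {n : ℕ} (a b : Fin n ⊕ Fin n → R) : R :=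
  ∑ c, (a (Sum.inl c) * b (Sum.inr c) - a (Sum.inr c) * b (Sum.inl c))

theorem om2_map {R R' : Type*} [CommRing R] [CommRing R'] (φ : R →+* R') {n : ℕ}
    (a b : Fin n ⊕ Fin n → R) : φ (om2 a b) = om2 (fun i => φ (a i)) (fun i => φ (b i)) := by
  simp [om2]

/-- The sum over all functions of a product over a matching. -/
theorem sum_match {B κ K : Type*} [Fintype B] [DecidableEq B] [Fintype κ] [DecidableEq κ]
    [Field K] {m : ℕ} (e : Fin m × Fin 2 ≃ κ) (F : Fin m → B → B → K) :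
    ∑ I : κ → B, ∏ s, F s (I (e (s, 0))) (I (e (s, 1))) = ∏ s, ∑ i, ∑ j, F s i j := by
  have h1 : ∏ s, ∑ i, ∑ j, F s i j = ∏ s, ∑ p : B × B, F s p.1 p.2 := by
    refine Finset.prod_congr rfl fun s _ => ?_
    rw [Fintype.sum_prod_type]
  rw [h1, Finset.prod_univ_sum, Fintype.piFinset_univ]
  let E : (κ → B) ≃ (Fin m → B × B) :=
    { toFun := fun I s => (I (e (s, 0)), I (e (s, 1)))
      invFun := fun P k => if (e.symm k).2 = 0 then (P (e.symm k).1).1 else (P (e.symm k).1).2
      left_inv := by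
        intro I
        funext k
        obtain ⟨⟨s, ε⟩, rfl⟩ := e.surjective k
        fin_cases ε <;> simp
      right_inv := by
        intro P
        funext s
        simp }
  exact Fintype.sum_equiv E _ _ fun I => rfl

/-- Rational functions in the span, over a larger field, of rational functions. -/
theorem descent {A k : Type*} [Field k] [CharZero k] (PS : Set (A → ℚ)) (f : A → ℚ)
    (hf : (fun v => ((f v : ℚ) : k)) ∈ Submodule.span k
      ((fun (g : A → ℚ) v => ((g v : ℚ) : k)) '' PS)) : f ∈ Submodule.span ℚ PS := by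
  have key : ∀ G ∈ Submodule.span k ((fun (g : A → ℚ) v => ((g v : ℚ) : k)) '' PS),
      ∀ lam : k →ₗ[ℚ] ℚ, (fun v => lam (G v)) ∈ Submodule.span ℚ PS := by
    intro G hG
    induction hG using Submodule.span_induction with
    | mem G hG =>
      obtain ⟨g, hg, rfl⟩ := hG
      intro lam
      have h1 : (fun v => lam ((g v : ℚ) : k)) = (lam 1) • g := by
        funext v
        have h2 : ((g v : ℚ) : k) = g v • (1 : k) := by
          rw [Rat.smul_def, mul_one]
        rw [h2, map_smul, Pi.smul_apply, smul_eq_mul, smul_eq_mul, mul_comm]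
      rw [h1]
      exact Submodule.smul_mem _ _ (Submodule.subset_span hg)
    | zero =>
      intro lam
      have h1 : (fun v : A => lam ((0 : A → k) v)) = 0 := by
        funext v
        rw [Pi.zero_apply, map_zero]
        rfl
      rw [h1]
      exact Submodule.zero_mem _
    | add G G' _ _ h1 h2 =>
      intro lam
      have h3 : (fun v => lam ((G + G') v)) = (fun v => lam (G v)) + fun v => lam (G' v) := by
        funext v
        rw [Pi.add_apply, map_add]
        rfl
      rw [h3]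
      exact Submodule.add_mem _ (h1 lam) (h2 lam)
    | smul a G _ h1 =>
      intro lam
      exact h1 (lam.comp (LinearMap.mulLeft ℚ a))
  obtain ⟨lam, hlam⟩ : ∃ lam : k →ₗ[ℚ] ℚ, lam 1 = 1 := by
    obtain ⟨lam0, h0⟩ : ∃ lam0 : k →ₗ[ℚ] ℚ, lam0 1 ≠ 0 := by
      by_contra hcon
      push Not at hcon
      exact one_ne_zero ((Module.forall_dual_apply_eq_zero_iff ℚ (1 : k)).1 hcon)
    refine ⟨(lam0 1)⁻¹ • lam0, ?_⟩
    rw [LinearMap.smul_apply, smul_eq_mul, inv_mul_cancel₀ h0]
  have h1 := key _ hf lam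
  have h2 : (fun v => lam ((f v : ℚ) : k)) = f := by
    funext v
    have h2 : ((f v : ℚ) : k) = f v • (1 : k) := by
      rw [Rat.smul_def, mul_one]
    rw [h2, map_smul, hlam, smul_eq_mul, mul_one]
  rwa [h2] at h1

variable {ι : Type*} {F : ι → Type*} [∀ i, Field (F i)] {h : ι → ℕ}

variable [Fintype ι] [∀ i, NumberField (F i)] [∀ i, IsTotallyReal (F i)]

/-- The rational bilinear forms given by the symplectic forms over the fields. -/
noncomputable def ratB {n : ℕ} (i : ι) (μ : F i) (j0 j1 : Fin n) :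
    (∀ p : Fin n × ι, Fin (h p.2) ⊕ Fin (h p.2) → F p.2) →ₗ[ℚ]
      (∀ p : Fin n × ι, Fin (h p.2) ⊕ Fin (h p.2) → F p.2) →ₗ[ℚ] ℚ :=
  LinearMap.mk₂ ℚ (fun u v => Algebra.trace ℚ (F i) (μ * om2 (u (j0, i)) (v (j1, i))))
    (fun u u' v => by
      rw [← map_add, ← mul_add]
      congr 2
      simp only [om2, Pi.add_apply, ← Finset.sum_add_distrib]
      exact Finset.sum_congr rfl fun c _ => by ring)
    (fun a u v => by
      rw [← map_smul]
      congr 1
      rw [← mul_smul_comm]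
      congr 1
      simp only [om2, Pi.smul_apply, Finset.smul_sum, smul_sub, smul_mul_assoc])
    (fun u v v' => by
      rw [← map_add, ← mul_add]
      congr 2
      simp only [om2, Pi.add_apply, ← Finset.sum_add_distrib]
      exact Finset.sum_congr rfl fun c _ => by ring)
    (fun a u v => by
      rw [← map_smul]
      congr 1
      rw [← mul_smul_comm]
      congr 1
      simp only [om2, Pi.smul_apply, Finset.smul_sum, smul_sub, mul_smul_comm])

theorem ratB_apply {n : ℕ} (i : ι) (μ : F i) (j0 j1 : Fin n)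
    (u v : ∀ p : Fin n × ι, Fin (h p.2) ⊕ Fin (h p.2) → F p.2) :
    ratB i μ j0 j1 u v = Algebra.trace ℚ (F i) (μ * om2 (u (j0, i)) (v (j1, i))) := rfl

/-- The real forms on the tangent space. -/
noncomputable def realB (Z : ∀ i, (F i →+* ℝ) → Matrix (Fin (h i)) (Fin (h i)) ℂ) {n : ℕ} (i : ι)
    (μ : F i) (j0 j1 : Fin n) :
    (∀ p : Fin n × ι, (F p.2 →+* ℝ) → Fin (h p.2) → ℂ) →ₗ[ℝ]
      (∀ p : Fin n × ι, (F p.2 →+* ℝ) → Fin (h p.2) → ℂ) →ₗ[ℝ] ℝ :=
  ∑ σ : F i →+* ℝ, (σ μ) • (omC (Z i σ)).compl₁₂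
    ((LinearMap.proj (R := ℝ) (φ := fun _ : F i →+* ℝ => Fin (h i) → ℂ) σ).comp
      (LinearMap.proj (R := ℝ) (φ := fun p : Fin n × ι => (F p.2 →+* ℝ) → Fin (h p.2) → ℂ) (j0, i)))
    ((LinearMap.proj (R := ℝ) (φ := fun _ : F i →+* ℝ => Fin (h i) → ℂ) σ).comp
      (LinearMap.proj (R := ℝ) (φ := fun p : Fin n × ι => (F p.2 →+* ℝ) → Fin (h p.2) → ℂ) (j1, i)))

theorem realB_apply (Z : ∀ i, (F i →+* ℝ) → Matrix (Fin (h i)) (Fin (h i)) ℂ) {n : ℕ} (i : ι)
    (μ : F i) (j0 j1 : Fin n) (u v : ∀ p : Fin n × ι, (F p.2 →+* ℝ) → Fin (h p.2) → ℂ) :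
    realB Z i μ j0 j1 u v = ∑ σ : F i →+* ℝ, σ μ * omC (Z i σ) (u (j0, i) σ) (v (j1, i) σ) := by
  unfold realB
  rw [LinearMap.sum_apply, LinearMap.sum_apply]
  rfl

theorem realB_per {Z : ∀ i, (F i →+* ℝ) → Matrix (Fin (h i)) (Fin (h i)) ℂ}
    (hZ : ∀ i σ, (Z i σ)ᵀ = Z i σ) (hY : ∀ i σ, IsUnit (imM (Z i σ)).det) {n : ℕ} (i : ι)
    (μ : F i) (j0 j1 : Fin n) (u v : ∀ p : Fin n × ι, Fin (h p.2) ⊕ Fin (h p.2) → F p.2) :
    realB Z i μ j0 j1 (perRM Z (Prod.snd : Fin n × ι → ι) u)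
      (perRM Z (Prod.snd : Fin n × ι → ι) v) = ((ratB i μ j0 j1 u v : ℚ) : ℝ) := by
  rw [realB_apply, ratB_apply, trace_real]
  refine Finset.sum_congr rfl fun σ _ => ?_
  have h1 : ∀ (w : ∀ p : Fin n × ι, Fin (h p.2) ⊕ Fin (h p.2) → F p.2) (j : Fin n),
      perRM Z (Prod.snd : Fin n × ι → ι) w (j, i) σ = perR (Z i σ) (fun β => σ (w (j, i) β)) := by
    intro w j
    funext a
    rfl
  rw [h1, h1, omC_per (hZ i σ) (hY i σ), map_mul, om2_map]
  congr 1
  simp only [om2, dotProduct, ← Finset.sum_sub_distrib]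

theorem isHodge_ratB {Z : ∀ i, (F i →+* ℝ) → Matrix (Fin (h i)) (Fin (h i)) ℂ}
    (hZ : ∀ i σ, (Z i σ)ᵀ = Z i σ) (hY : ∀ i σ, IsUnit (imM (Z i σ)).det) {n : ℕ} (i : ι)
    (μ : F i) (j0 j1 : Fin n) :
    IsHodge (perRM Z (Prod.snd : Fin n × ι → ι))
      (MultilinearMap.alternatization (bil2 (ratB (h := h) i μ j0 j1))) := by
  refine isHodge_alt (bil2 (realB Z i μ j0 j1)) (fun v => ?_) (fun z hz u => ?_)
  · rw [bil2_apply, bil2_apply]
    exact realB_per hZ hY i μ j0 j1 _ _
  · rw [bil2_apply, bil2_apply, realB_apply, realB_apply]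
    refine Finset.sum_congr rfl fun σ _ => ?_
    congr 1
    exact omC_rotate z hz _ _

variable {k : Type*} [Field k] [Algebra k ℝ] [CharZero k]
  {sg : ∀ i, (F i →+* ℝ) → (F i →+* k)} [DecidableEq (XX F)]

/-- The multilinear form given by coefficients. -/
noncomputable def pK (sg : ∀ i, (F i →+* ℝ) → (F i →+* k)) {n : ℕ} {κ : Type*} [Fintype κ] [DecidableEq κ]
    (t : κ → Fin n) : ((κ → GG F h ⊕ GG F h) → k) →ₗ[k]
      ((κ → ∀ p : Fin n × ι, Fin (h p.2) ⊕ Fin (h p.2) → F p.2) → k) where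
  toFun c := fun v => ∑ I, c I * ∏ l, crd sg (fun i => v l (t l, i)) (I l)
  map_add' c d := by
    funext v
    simp only [Pi.add_apply, add_mul, Finset.sum_add_distrib]
  map_smul' a c := by
    funext v
    simp only [Pi.smul_apply, smul_eq_mul, mul_assoc, Finset.mul_sum, RingHom.id_apply]

theorem sum_fst (x : XX F) (g : GG F h → k) :
    ∑ y : GG F h, (if y.1 = x then g y else 0) = ∑ c, g ⟨x, c⟩ := by
  rw [Fintype.sum_sigma, Finset.sum_eq_single x]
  · exact Finset.sum_congr rfl fun c _ => if_pos rfl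
  · intro x' _ hx'
    exact Finset.sum_eq_zero fun c _ => if_neg hx'
  · intro h
    exact absurd (Finset.mem_univ _) h

theorem Om_sum (x : XX F) (a b : GG F h ⊕ GG F h → k) :
    ∑ y, ∑ y', (if cl2 Sigma.fst y = x then Om (GG F h) k y y' else 0) * (a y * b y') =
      om2 (fun β => a (gg x.1 x.2 β)) (fun β => b (gg x.1 x.2 β)) := by
  have h1 : ∀ y : GG F h ⊕ GG F h,
      ∑ y', (if cl2 Sigma.fst y = x then Om (GG F h) k y y' else 0) * (a y * b y') =
      if cl2 Sigma.fst y = x then sgn2 (GG F h) k y * (a y * b (Sum.swap y)) else 0 := by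
    intro y
    by_cases hy : cl2 Sigma.fst y = x
    · simp only [if_pos hy]
      rw [Finset.sum_eq_single (Sum.swap y)]
      · rw [← JJ_eq]
        unfold JJ
        rw [if_pos rfl]
      · intro y' _ hy'
        rw [← JJ_eq]
        unfold JJ
        rw [if_neg hy', zero_mul]
      · intro h
        exact absurd (Finset.mem_univ _) h
    · simp only [if_neg hy, zero_mul, Finset.sum_const_zero]
  rw [Finset.sum_congr rfl (fun y _ => h1 y), Fintype.sum_sum_type]
  have h2 := sum_fst x (fun g : GG F h => sgn2 (GG F h) k (Sum.inl g) *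
    (a (Sum.inl g) * b (Sum.swap (Sum.inl g))))
  have h3 := sum_fst x (fun g : GG F h => sgn2 (GG F h) k (Sum.inr g) *
    (a (Sum.inr g) * b (Sum.swap (Sum.inr g))))
  refine (congrArg₂ (fun x y : k => x + y) h2 h3).trans ?_
  unfold om2
  rw [Finset.sum_sub_distrib, sub_eq_add_neg, ← Finset.sum_neg_distrib]
  refine congrArg₂ (fun x y : k => x + y) ?_ ?_
  · refine Finset.sum_congr rfl fun c _ => ?_
    exact one_mul _
  · refine Finset.sum_congr rfl fun c _ => ?_
    exact neg_one_mul _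

theorem pK_matG {n m : ℕ} (t : Fin m × Fin 2 → Fin n) (e : Equiv.Perm (Fin m × Fin 2))
    (cc : Fin m → XX F) :
    pK (h := h) sg t (matG (cl2 Sigma.fst) Sum.swap (sgn2 (GG F h) k) e cc) =
      fun v => ∏ s, sg (cc s).1 (cc s).2 (om2 (v (e (s, 0)) (t (e (s, 0)), (cc s).1))
        (v (e (s, 1)) (t (e (s, 1)), (cc s).1))) := by
  funext v
  change ∑ I, _ * _ = _
  have h1 : ∀ I : Fin m × Fin 2 → GG F h ⊕ GG F h,
      matG (cl2 Sigma.fst) Sum.swap (sgn2 (GG F h) k) e cc I *
        ∏ l, crd sg (fun i => v l (t l, i)) (I l) =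
      ∏ s, ((if cl2 Sigma.fst (I (e (s, 0))) = cc s then
          Om (GG F h) k (I (e (s, 0))) (I (e (s, 1))) else 0) *
        (crd sg (fun i => v (e (s, 0)) (t (e (s, 0)), i)) (I (e (s, 0))) *
          crd sg (fun i => v (e (s, 1)) (t (e (s, 1)), i)) (I (e (s, 1))))) := by
    intro I
    rw [← Equiv.prod_comp e (fun l => crd sg (fun i => v l (t l, i)) (I l)),
      Fintype.prod_prod_type]
    simp only [matG, Fin.prod_univ_two, JJ_eq]
    rw [← Finset.prod_mul_distrib]
  rw [Finset.sum_congr rfl (fun I _ => h1 I)]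
  rw [sum_match e (fun s y y' => (if cl2 Sigma.fst y = cc s then
          Om (GG F h) k y y' else 0) *
        (crd sg (fun i => v (e (s, 0)) (t (e (s, 0)), i)) y *
          crd sg (fun i => v (e (s, 1)) (t (e (s, 1)), i)) y'))]
  refine Finset.prod_congr rfl fun s _ => ?_
  rw [Om_sum, om2_map]
  congr 1
  · funext β
    rw [crd_gg]
  · funext β
    rw [crd_gg]

end Pool.Agent.W437.HK
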