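import Mathlib
import Pool.Agent.W437.HK.Fin

/-!
# Hodge classes on products of abelian varieties with real multiplication: the theorem
-/

set_option linter.unusedSectionVars false

namespace Pool.Agent.W437.HK

open Matrix NumberField Pool.Agent.H204R3.CM Pool.Agent.H204R3.SP Pool.Agent.H204R3.GP
  Pool.Agent.H194R3.CM

section

variable {W₁ W₂ T₁ T₂ : Type*} [AddCommGroup W₁] [Module ℚ W₁] [AddCommGroup W₂] [Module ℚ W₂]
  [AddCommGroup T₁] [Module ℂ T₁] [AddCommGroup T₂] [Module ℂ T₂] {per₁ : W₁ →+ T₁}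
  {per₂ : W₂ →+ T₂} {φ : W₁ →ₗ[ℚ] W₂} {Φ : T₁ →ₗ[ℂ] T₂}

/-- The pullback of a Hodge class. -/
theorem isHodge_pullback (hΦ : ∀ w, per₂ (φ w) = Φ (per₁ w)) {κ : Type*} {f : W₂ [⋀^κ]→ₗ[ℚ] ℚ}
    (hf : IsHodge per₂ f) : IsHodge per₁ (f.compLinearMap φ) := by
  obtain ⟨ψ, h1, h2⟩ := hf
  refine ⟨ψ.compLinearMap (fun _ => Φ.restrictScalars ℝ), fun v => ?_, fun z hz u => ?_⟩
  · change ψ (fun l => Φ (per₁ (v l))) = _
    have h3 : (fun l => Φ (per₁ (v l))) = fun l => per₂ (φ (v l)) := by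
      funext l
      exact (hΦ _).symm
    rw [h3, h1]
    rfl
  · change ψ (fun l => Φ (z • u l)) = ψ (fun l => Φ (u l))
    have h3 : (fun l => Φ (z • u l)) = fun l => z • Φ (u l) := by
      funext l
      exact map_smul _ _ _
    rw [h3, h2 z hz]

/-- The pullback of a class generated by Hodge classes of degree two. -/
theorem divisorial_pullback (hΦ : ∀ w, per₂ (φ w) = Φ (per₁ w)) {m : ℕ}
    {f : W₂ [⋀^Fin m × Fin 2]→ₗ[ℚ] ℚ} (hf : f ∈ divisorial per₂ m) :
    f.compLinearMap φ ∈ divisorial per₁ m := by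
  unfold divisorial at hf
  induction hf using Submodule.span_induction with
  | mem g hg =>
    obtain ⟨B, hB, hg⟩ := hg
    refine Submodule.subset_span ⟨fun l => (B l).compLinearMap φ,
      fun l => isHodge_pullback hΦ (hB l), fun v => ?_⟩
    change g (fun l => φ (v l)) = _
    rw [hg]
    refine Finset.sum_congr rfl fun σ _ => ?_
    congr 1
    refine Finset.prod_congr rfl fun l _ => ?_
    rw [AlternatingMap.compLinearMap_apply]
    congr 1
    funext ε
    fin_cases ε <;> rfl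
  | zero => exact Submodule.zero_mem _
  | add f g _ _ hf hg => exact Submodule.add_mem _ hf hg
  | smul a f _ hf => exact Submodule.smul_mem _ a hf

end

variable {ι : Type*} {F : ι → Type*} [∀ i, Field (F i)] {h : ι → ℕ}

variable [Fintype ι] [∀ i, NumberField (F i)] [∀ i, IsTotallyReal (F i)]

section

variable {k : Type*} [Field k] [Algebra k ℝ] [CharZero k]
  {sg : ∀ i, (F i →+* ℝ) → (F i →+* k)}

/-- The products of rational bilinear forms. -/
def PS (F : ι → Type*) [∀ i, Field (F i)] [∀ i, NumberField (F i)] [∀ i, IsTotallyReal (F i)]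
    (h : ι → ℕ) (n m : ℕ) :
    Set ((Fin m × Fin 2 → ∀ p : Fin n × ι, Fin (h p.2) ⊕ Fin (h p.2) → F p.2) → ℚ) :=
  {g | ∃ (e : Equiv.Perm (Fin m × Fin 2))
    (B : Fin m → MultilinearMap ℚ
      (fun _ : Fin 2 => ∀ p : Fin n × ι, Fin (h p.2) ⊕ Fin (h p.2) → F p.2) ℚ),
        (∀ s, B s ∈ {b | ∃ (i : ι) (μ : F i) (j0 j1 : Fin n), b = bil2 (ratB i μ j0 j1)}) ∧
          g = fun v => ∏ s, B s (fun ε => v (e (s, ε)))}

theorem prod_mem {n m : ℕ} (t : Fin m × Fin 2 → Fin n) (e : Equiv.Perm (Fin m × Fin 2))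
    (cc : Fin m → XX F) :
    (fun v : Fin m × Fin 2 → ∀ p : Fin n × ι, Fin (h p.2) ⊕ Fin (h p.2) → F p.2 =>
      ∏ s, sg (cc s).1 (cc s).2 (om2 (v (e (s, 0)) (t (e (s, 0)), (cc s).1))
        (v (e (s, 1)) (t (e (s, 1)), (cc s).1)))) ∈
      Submodule.span k ((fun (g : _ → ℚ) v => ((g v : ℚ) : k)) '' PS F h n m) := by
  choose N b b' hb using fun s => exists_dual (F (cc s).1)
  have h1 : ∀ (s : Fin m) (y : F (cc s).1), sg (cc s).1 (cc s).2 y =
      ∑ l : Fin (N s), sg (cc s).1 (cc s).2 (b' s l) *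
        ((Algebra.trace ℚ (F (cc s).1) (b s l * y) : ℚ) : k) := by
    intro s y
    conv_lhs => rw [hb s y]
    rw [map_sum]
    refine Finset.sum_congr rfl fun l _ => ?_
    rw [map_rat_smul, Rat.smul_def, mul_comm]
  have h2 : (fun v : Fin m × Fin 2 → ∀ p : Fin n × ι, Fin (h p.2) ⊕ Fin (h p.2) → F p.2 =>
      ∏ s, sg (cc s).1 (cc s).2 (om2 (v (e (s, 0)) (t (e (s, 0)), (cc s).1))
        (v (e (s, 1)) (t (e (s, 1)), (cc s).1)))) =
      ∑ r : (∀ s, Fin (N s)), (∏ s, sg (cc s).1 (cc s).2 (b' s (r s))) •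
        fun v => (((∏ s, bil2 (ratB (cc s).1 (b s (r s)) (t (e (s, 0))) (t (e (s, 1))))
          (fun ε => v (e (s, ε))) : ℚ)) : k) := by
    funext v
    rw [Finset.prod_congr rfl (fun s _ => h1 s _), Finset.prod_univ_sum, Finset.sum_apply,
      Fintype.piFinset_univ]
    refine Finset.sum_congr rfl fun r _ => ?_
    rw [Pi.smul_apply, smul_eq_mul, Finset.prod_mul_distrib, Rat.cast_prod]
    rfl
  rw [h2]
  refine Submodule.sum_mem _ fun r _ => Submodule.smul_mem _ _ (Submodule.subset_span ?_)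
  exact ⟨_, ⟨e, fun s => bil2 (ratB (cc s).1 (b s (r s)) (t (e (s, 0))) (t (e (s, 1)))),
    fun s => ⟨_, _, _, _, rfl⟩, rfl⟩, rfl⟩

/-- The theorem for powers of the product of all members of the family. -/
theorem snd_main (hsg : ∀ i σ a, algebraMap k ℝ (sg i σ a) = σ a)
    (Z : ∀ i, (F i →+* ℝ) → Matrix (Fin (h i)) (Fin (h i)) ℂ)
    (hsymm : ∀ i σ, (Z i σ)ᵀ = Z i σ) (hpos : ∀ i σ, (imM (Z i σ)).PosDef)
    (hrel : ∀ p : MvPolynomial (SB (fun x : XX F => h x.1)) k, p.totalDegree ≤ 3 →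
      MvPolynomial.aeval (fun s : SB (fun x : XX F => h x.1) =>
        Z s.1.1 s.1.2 s.2.1.1 s.2.1.2) p = 0 → p = 0)
    {n m : ℕ}
    (f : (∀ p : Fin n × ι, Fin (h p.2) ⊕ Fin (h p.2) → F p.2) [⋀^Fin m × Fin 2]→ₗ[ℚ] ℚ)
    (hf : IsHodge (perRM Z (Prod.snd : Fin n × ι → ι)) f) :
    f ∈ divisorial (perRM Z (Prod.snd : Fin n × ι → ι)) m := by
  classical
  have hY : ∀ i σ, IsUnit (imM (Z i σ)).det := fun i σ =>
    (hpos i σ).isUnit.map Matrix.detMonoidHom
  set Zb := bigM (fun x : XX F => Z x.1 x.2) with hZb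
  have hZbs : Zbᵀ = Zb := bigM_symm _ fun x => hsymm x.1 x.2
  have hposb : (imM Zb).PosDef := by
    have h1 : imM Zb = bigM (fun x : XX F => imM (Z x.1 x.2)) :=
      bigM_map Complex.im Complex.zero_im _
    rw [h1]
    exact bigM_posDef _ fun x => hpos x.1 x.2
  have hz := bigM_eq (fun x : XX F => Z x.1 x.2) (fun x => hsymm x.1 x.2)
  have hYb : IsUnit (imM Zb).det := hposb.isUnit.map Matrix.detMonoidHom
  have h1 := alt_span (R := ℚ) (W := ∀ p : Fin n × ι, Fin (h p.2) ⊕ Fin (h p.2) → F p.2)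
    {b | ∃ (i : ι) (μ : F i) (j0 j1 : Fin n), b = bil2 (ratB i μ j0 j1)} f ?_
  · refine Submodule.span_mono ?_ h1
    rintro G ⟨b, hb, hG⟩
    refine ⟨fun s => MultilinearMap.alternatization (b s), fun s => ?_, fun v => ?_⟩
    · obtain ⟨i, μ, j0, j1, hp⟩ := hb s
      change IsHodge _ (MultilinearMap.alternatization (b s))
      rw [hp]
      exact isHodge_ratB hsymm hY i μ j0 j1
    · rw [hG v]
  · refine descent (k := k) (PS F h n m) (fun v => f v) ?_
    obtain ⟨c, hc⟩ := exists_coef (k := k) (sg := sg) (h := h) hsg f.toMultilinearMap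
    have h2 : (fun v => ((f v : ℚ) : k)) = ∑ τ : Fin m × Fin 2 → Fin n, pK sg τ (c τ) := by
      funext v
      rw [Finset.sum_apply]
      exact hc v
    rw [h2]
    refine Submodule.sum_mem _ fun τ _ => ?_
    have h3 : IsH (DZ Zb) (c τ) := isH_coef hsg hYb hf hc τ
    have h4 : c τ ∈ MatG (cl2 Sigma.fst) Sum.swap (sgn2 (GG F h) k) (Fin m × Fin 2) m := by
      refine mem_MatG Sigma.fst (by simp [mul_comm]) fun c0 w hw => ?_
      have h5 := rk1_mem_lie (k := k) (cls := (Sigma.fst : GG F h → XX F)) hZbs hposb hz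
        idxB_hidx hrel (c0 := c0) w hw
      exact lieM_kills _ h5 h3
    have h5 : pK sg τ (c τ) ∈ (MatG (cl2 Sigma.fst) Sum.swap (sgn2 (GG F h) k)
        (Fin m × Fin 2) m).map (pK sg τ) := Submodule.mem_map_of_mem h4
    unfold MatG at h5
    rw [Submodule.map_span] at h5
    refine Submodule.span_le.2 ?_ h5
    rintro _ ⟨_, ⟨e, cc, rfl⟩, rfl⟩
    rw [pK_matG]
    exact prod_mem τ e cc

end

/-- The inclusion of a product in the power of the product of all members. -/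
noncomputable def incW {n : ℕ} (t : Fin n → ι) : (∀ j, Fin (h (t j)) ⊕ Fin (h (t j)) → F (t j)) →ₗ[ℚ]
    (∀ p : Fin n × ι, Fin (h p.2) ⊕ Fin (h p.2) → F p.2) := by
  classical
  exact
  { toFun := fun w p => if hp : t p.1 = p.2 then
      Eq.rec (motive := fun i _ => Fin (h i) ⊕ Fin (h i) → F i) (w p.1) hp else 0
    map_add' := by
      intro w w'
      funext ⟨j, i⟩
      by_cases hp : t j = i
      · subst hp
        simp
      · simp [hp]
    map_smul' := by
      intro a w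
      funext ⟨j, i⟩
      by_cases hp : t j = i
      · subst hp
        simp
      · simp [hp] }

theorem incW_same {n : ℕ} (t : Fin n → ι)
    (w : ∀ j, Fin (h (t j)) ⊕ Fin (h (t j)) → F (t j)) (j : Fin n) :
    incW t w (j, t j) = w j := dif_pos rfl

theorem incW_ne {n : ℕ} (t : Fin n → ι)
    (w : ∀ j, Fin (h (t j)) ⊕ Fin (h (t j)) → F (t j)) (j : Fin n) {i : ι} (hi : t j ≠ i) :
    incW t w (j, i) = 0 := dif_neg hi

/-- The inclusion of the tangent space of a product. -/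
noncomputable def incT {n : ℕ} (t : Fin n → ι) :
    (∀ j, (F (t j) →+* ℝ) → Fin (h (t j)) → ℂ) →ₗ[ℂ]
    (∀ p : Fin n × ι, (F p.2 →+* ℝ) → Fin (h p.2) → ℂ) := by
  classical
  exact
  { toFun := fun w p => if hp : t p.1 = p.2 then
      Eq.rec (motive := fun i _ => (F i →+* ℝ) → Fin (h i) → ℂ) (w p.1) hp else 0
    map_add' := by
      intro w w'
      funext ⟨j, i⟩
      by_cases hp : t j = i
      · subst hp
        simp
      · simp [hp]
    map_smul' := by
      intro a w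
      funext ⟨j, i⟩
      by_cases hp : t j = i
      · subst hp
        simp
      · simp [hp] }

theorem incT_same {n : ℕ} (t : Fin n → ι) (w : ∀ j, (F (t j) →+* ℝ) → Fin (h (t j)) → ℂ)
    (j : Fin n) : incT t w (j, t j) = w j := dif_pos rfl

theorem incT_ne {n : ℕ} (t : Fin n → ι) (w : ∀ j, (F (t j) →+* ℝ) → Fin (h (t j)) → ℂ)
    (j : Fin n) {i : ι} (hi : t j ≠ i) : incT t w (j, i) = 0 := dif_neg hi

theorem inc_per (Z : ∀ i, (F i →+* ℝ) → Matrix (Fin (h i)) (Fin (h i)) ℂ) {n : ℕ} (t : Fin n → ι)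
    (w : ∀ j, Fin (h (t j)) ⊕ Fin (h (t j)) → F (t j)) :
    perRM Z (Prod.snd : Fin n × ι → ι) (incW t w) = incT t (perRM Z t w) := by
  funext ⟨j, i⟩
  by_cases hi : t j = i
  · subst hi
    rw [incT_same]
    funext σ a
    rw [perRM_apply, perRM_apply, incW_same]
  · rw [incT_ne _ _ _ hi]
    funext σ a
    rw [perRM_apply, incW_ne _ _ _ hi]
    simp

/-- The projection to a product. -/
def prW {n : ℕ} (t : Fin n → ι) : (∀ p : Fin n × ι, Fin (h p.2) ⊕ Fin (h p.2) → F p.2) →ₗ[ℚ]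
    (∀ j, Fin (h (t j)) ⊕ Fin (h (t j)) → F (t j)) where
  toFun w := fun j => w (j, t j)
  map_add' _ _ := rfl
  map_smul' _ _ := rfl

/-- The projection of the tangent spaces. -/
def prT {n : ℕ} (t : Fin n → ι) : (∀ p : Fin n × ι, (F p.2 →+* ℝ) → Fin (h p.2) → ℂ) →ₗ[ℂ]
    (∀ j, (F (t j) →+* ℝ) → Fin (h (t j)) → ℂ) where
  toFun w := fun j => w (j, t j)
  map_add' _ _ := rfl
  map_smul' _ _ := rfl

/-- The theorem for arbitrary products. -/
theorem main {k : Type*} [Field k] [Algebra k ℝ] [CharZero k]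
    {sg : ∀ i, (F i →+* ℝ) → (F i →+* k)}
    (hsg : ∀ i σ a, algebraMap k ℝ (sg i σ a) = σ a)
    (Z : ∀ i, (F i →+* ℝ) → Matrix (Fin (h i)) (Fin (h i)) ℂ)
    (hsymm : ∀ i σ, (Z i σ)ᵀ = Z i σ) (hpos : ∀ i σ, (imM (Z i σ)).PosDef)
    (hrel : ∀ p : MvPolynomial (SB (fun x : XX F => h x.1)) k, p.totalDegree ≤ 3 →
      MvPolynomial.aeval (fun s : SB (fun x : XX F => h x.1) =>
        Z s.1.1 s.1.2 s.2.1.1 s.2.1.2) p = 0 → p = 0)
    {n m : ℕ} (t : Fin n → ι)
    (f : (∀ j, Fin (h (t j)) ⊕ Fin (h (t j)) → F (t j)) [⋀^Fin m × Fin 2]→ₗ[ℚ] ℚ)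
    (hf : IsHodge (perRM Z t) f) : f ∈ divisorial (perRM Z t) m := by
  have h1 : IsHodge (perRM Z (Prod.snd : Fin n × ι → ι)) (f.compLinearMap (prW t)) :=
    isHodge_pullback (Φ := prT t) (fun w => rfl) hf
  have h2 := snd_main hsg Z hsymm hpos hrel _ h1
  have h3 := divisorial_pullback (Φ := incT t) (inc_per Z t) h2
  have h4 : (f.compLinearMap (prW t)).compLinearMap (incW t) = f := by
    ext v
    change f (fun l => prW t (incW t (v l))) = f v
    congr 1
    funext l j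
    exact incW_same t (v l) j
  rwa [h4] at h3

end Pool.Agent.W437.HK
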